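import Mathlib
import Pool.Agent.Helper49.FCoreDefs
import Pool.Agent.Helper56.FAIft

/-! Piece I of the classification (statements by helper49): the ideal vanishes on the graph of the functions
`β`, and the independence of the rows. -/

set_option autoImplicit false

namespace Pool.Agent.Helper49.FA

open MeasureTheory Set Filter Topology Complex
open MvPolynomial (monomial pderiv)
open scoped ContDiff ComplexConjugate

variable {n : ℕ}

/-! ### auxiliary facts -/

/-- the derivative of `pe q`, as a continuous linear map -/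
private noncomputable def dpe (q : MvPolynomial (Fin n) ℂ) (θ : Fin n → ℝ) : (Fin n → ℝ) →L[ℝ] ℂ :=
  ∑ k, (I * exp (I * (θ k : ℂ)) * pe (pderiv k q) θ) •
    (ofRealCLM.comp (ContinuousLinearMap.proj k : (Fin n → ℝ) →L[ℝ] ℝ))

private theorem dpe_apply (q : MvPolynomial (Fin n) ℂ) (θ v : Fin n → ℝ) :
    dpe q θ v = ∑ k, I * exp (I * (θ k : ℂ)) * pe (pderiv k q) θ * (v k : ℂ) := by
  simp [dpe]

private theorem hasFDerivAt_pe (q : MvPolynomial (Fin n) ℂ) (θ : Fin n → ℝ) :
    HasFDerivAt (pe q) (dpe q θ) θ := by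
  induction q using MvPolynomial.induction_on with
  | C a =>
    have h1 : pe (MvPolynomial.C a : MvPolynomial (Fin n) ℂ) = fun _ => a := by
      funext θ; simp [pe]
    have h2 : dpe (MvPolynomial.C a : MvPolynomial (Fin n) ℂ) θ = 0 := by
      ext v
      rw [dpe_apply]
      simp [pe]
    rw [h1, h2]
    exact hasFDerivAt_const _ _
  | add p q hp hq =>
    have h1 : pe (p + q) = fun θ => pe p θ + pe q θ := by
      funext θ; simp [pe]
    have h2 : dpe (p + q) θ = dpe p θ + dpe q θ := by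
      ext v
      rw [_root_.add_apply, dpe_apply, dpe_apply, dpe_apply, ← Finset.sum_add_distrib]
      apply Finset.sum_congr rfl
      intro k _
      have : pe (pderiv k (p + q)) θ = pe (pderiv k p) θ + pe (pderiv k q) θ := by
        simp [pe]
      rw [this]
      ring
    rw [h1, h2]
    exact hp.add hq
  | mul_X p i hp =>
    have h1 : pe (p * MvPolynomial.X i) = fun θ => pe p θ * exp (I * (θ i : ℂ)) := by
      funext θ; simp [pe]
    have h3 : HasFDerivAt (fun θ : Fin n → ℝ => exp (I * (θ i : ℂ)))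
        ((I * exp (I * (θ i : ℂ))) •
          (ofRealCLM.comp (ContinuousLinearMap.proj i : (Fin n → ℝ) →L[ℝ] ℝ))) θ := by
      have e1 : HasFDerivAt (fun θ : Fin n → ℝ => (θ i : ℂ))
          (ofRealCLM.comp (ContinuousLinearMap.proj i : (Fin n → ℝ) →L[ℝ] ℝ)) θ :=
        (ofRealCLM.comp (ContinuousLinearMap.proj i : (Fin n → ℝ) →L[ℝ] ℝ)).hasFDerivAt
      have e2 := (e1.const_mul I).cexp
      refine e2.congr_fderiv ?_
      ext v
      simp
      ring
    have h2 : dpe (p * MvPolynomial.X i) θ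
        = pe p θ • ((I * exp (I * (θ i : ℂ))) •
          (ofRealCLM.comp (ContinuousLinearMap.proj i : (Fin n → ℝ) →L[ℝ] ℝ)))
          + exp (I * (θ i : ℂ)) • dpe p θ := by
      ext v
      simp only [_root_.add_apply, FunLike.coe_smul, Pi.smul_apply, dpe_apply]
      have e1 : ∀ k, pe (pderiv k (p * MvPolynomial.X i)) θ
          = pe (pderiv k p) θ * exp (I * (θ i : ℂ)) + if k = i then pe p θ else 0 := by
        intro k
        by_cases hk : k = i
        · subst hk
          simp [pe, Derivation.leibniz]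
          ring
        · simp [pe, Derivation.leibniz, MvPolynomial.pderiv_X_of_ne (Ne.symm hk), hk]
          ring
      simp only [e1]
      simp only [mul_add, add_mul, Finset.sum_add_distrib, smul_eq_mul, Finset.mul_sum]
      rw [add_comm]
      congr 1
      · rw [Finset.sum_eq_single i]
        · simp
          ring
        · intro b _ hb
          simp [hb]
        · intro h; exact absurd (Finset.mem_univ _) h
      · apply Finset.sum_congr rfl
        intro k _
        ring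
    rw [h1, h2]
    exact hp.mul h3

private theorem pe_congr' {q : MvPolynomial (Fin n) ℂ} {S : Finset (Fin n)} (hq : q.vars ⊆ S) {θ θ' : Fin n → ℝ}
    (h : ∀ k ∈ S, θ k = θ' k) : pe q θ = pe q θ' := by
  apply MvPolynomial.eval₂Hom_congr' rfl _ rfl
  intro i hi _
  rw [h i (hq hi)]

private theorem pderiv_zero_of {q : MvPolynomial (Fin n) ℂ} {S : Finset (Fin n)} (hq : q.vars ⊆ S) {k : Fin n}
    (hk : k ∉ S) : pderiv k q = 0 :=
  MvPolynomial.pderiv_eq_zero_of_notMem_vars fun h => hk (hq h)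

private theorem contDiff_Psi {J : Finset (Fin n)} {β : Fin n → (Fin n → ℝ) → ℝ}
    (hβ : ∀ j ∉ J, ContDiff ℝ ∞ (β j)) : ContDiff ℝ ∞ (Psi J β) := by
  rw [contDiff_pi]
  intro k
  by_cases hk : k ∈ J
  · simp only [Psi, hk, if_true]
    exact contDiff_apply ℝ ℝ k
  · simp only [Psi, hk, if_false]
    exact hβ k hk

private theorem Psi_self {J : Finset (Fin n)} {β : Fin n → (Fin n → ℝ) → ℝ} {x : Fin n → ℝ}
    (hβx : ∀ j ∉ J, β j x = x j) : Psi J β x = x := by
  funext k
  by_cases hk : k ∈ J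
  · simp [Psi, hk]
  · simp [Psi, hk, hβx k hk]

/-- components of the derivative of `Psi` -/
private theorem fderiv_Psi {J : Finset (Fin n)} {β : Fin n → (Fin n → ℝ) → ℝ}
    (hβ : ∀ j ∉ J, ContDiff ℝ ∞ (β j)) (θ v : Fin n → ℝ) (k : Fin n) :
    fderiv ℝ (Psi J β) θ v k = if k ∈ J then v k else fderiv ℝ (β k) θ v := by
  have h1 : DifferentiableAt ℝ (Psi J β) θ := (contDiff_Psi hβ).differentiable (by simp) θ
  have h2 : fderiv ℝ (Psi J β) θ v k = fderiv ℝ (fun θ => Psi J β θ k) θ v := by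
    rw [fderiv_apply h1 k]
    rfl
  rw [h2]
  by_cases hk : k ∈ J
  · have : (fun θ => Psi J β θ k) = fun θ => θ k := by funext θ; simp [Psi, hk]
    rw [this, if_pos hk]
    have h3 : HasFDerivAt (fun θ : Fin n → ℝ => θ k) (ContinuousLinearMap.proj k : (Fin n → ℝ) →L[ℝ] ℝ) θ :=
      (ContinuousLinearMap.proj k : (Fin n → ℝ) →L[ℝ] ℝ).hasFDerivAt
    rw [h3.fderiv]
    rfl
  · have : (fun θ => Psi J β θ k) = β k := by funext θ; simp [Psi, hk]
    rw [this, if_neg hk]

/-- the derivative of `pe q ∘ Psi` in the direction of a coordinate -/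
private theorem fderiv_comp {J : Finset (Fin n)} {β : Fin n → (Fin n → ℝ) → ℝ}
    (hβ : ∀ j ∉ J, ContDiff ℝ ∞ (β j)) (q : MvPolynomial (Fin n) ℂ) (θ : Fin n → ℝ) {a : Fin n} (ha : a ∈ J) :
    fderiv ℝ (fun θ => pe q (Psi J β θ)) θ (Pi.single a 1)
      = I * exp (I * (θ a : ℂ)) * pe (pderiv a q) (Psi J β θ)
        + ∑ k ∈ Jᶜ, I * exp (I * (β k θ : ℂ)) * pe (pderiv k q) (Psi J β θ)
            * (fderiv ℝ (β k) θ (Pi.single a 1) : ℂ) := by
  have h1 : HasFDerivAt (Psi J β) (fderiv ℝ (Psi J β) θ) θ :=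
    ((contDiff_Psi hβ).differentiable (by simp) θ).hasFDerivAt
  have h2 := (hasFDerivAt_pe q (Psi J β θ)).comp θ h1
  have h3 : fderiv ℝ (fun θ => pe q (Psi J β θ)) θ = (dpe q (Psi J β θ)).comp (fderiv ℝ (Psi J β) θ) :=
    h2.fderiv
  rw [h3, ContinuousLinearMap.comp_apply, dpe_apply, ← Finset.sum_add_sum_compl J]
  congr 1
  · rw [Finset.sum_eq_single a]
    · rw [fderiv_Psi hβ, if_pos ha]
      simp [Psi, ha]
    · intro b hb hba
      rw [fderiv_Psi hβ, if_pos hb]
      simp [hba]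
    · intro h; exact absurd ha h
  · apply Finset.sum_congr rfl
    intro k hk
    rw [Finset.mem_compl] at hk
    rw [fderiv_Psi hβ, if_neg hk]
    simp [Psi, hk]

/-- the derivative of `pe q ∘ Psi` vanishes in the other directions -/
private theorem fderiv_comp_off {J : Finset (Fin n)} {β : Fin n → (Fin n → ℝ) → ℝ}
    (hdep : ∀ j ∉ J, ∀ θ θ' : Fin n → ℝ, (∀ k ∈ J, θ k = θ' k) → β j θ = β j θ')
    {F : Type*} [NormedAddCommGroup F] [NormedSpace ℝ F] (f : (Fin n → ℝ) → F)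
    (hf : Differentiable ℝ (fun θ => f (Psi J β θ))) (θ : Fin n → ℝ) {a : Fin n} (ha : a ∉ J) :
    fderiv ℝ (fun θ => f (Psi J β θ)) θ (Pi.single a 1) = 0 := by
  have h0 : ∀ t : ℝ, Psi J β (θ + t • Pi.single a 1) = Psi J β θ := by
    intro t
    funext k
    by_cases hk : k ∈ J
    · have : k ≠ a := fun h => ha (h ▸ hk)
      simp [Psi, hk, this]
    · simp only [Psi, hk, if_false]
      apply hdep k hk
      intro l hl
      have : l ≠ a := fun h => ha (h ▸ hl)
      simp [this]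
  have h1 : HasDerivAt (fun t : ℝ => f (Psi J β (θ + t • Pi.single a 1)))
      (fderiv ℝ (fun θ => f (Psi J β θ)) θ (Pi.single a 1)) 0 := by
    have e1 : HasDerivAt (fun t : ℝ => θ + t • (Pi.single a 1 : Fin n → ℝ)) (Pi.single a 1) 0 := by
      have := ((hasDerivAt_id (0:ℝ)).smul_const (Pi.single a 1 : Fin n → ℝ)).const_add θ
      simpa using this
    have e2 := (hf θ).hasFDerivAt
    have e3 : HasFDerivAt (fun θ => f (Psi J β θ)) (fderiv ℝ (fun θ => f (Psi J β θ)) θ)
        (θ + (0:ℝ) • (Pi.single a 1 : Fin n → ℝ)) := by simpa using e2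
    exact HasFDerivAt.comp_hasDerivAt (l := fun θ => f (Psi J β θ))
      (f := fun t : ℝ => θ + t • (Pi.single a 1 : Fin n → ℝ)) (0:ℝ) e3 e1
  have h2 : (fun t : ℝ => f (Psi J β (θ + t • Pi.single a 1))) = fun _ => f (Psi J β θ) := by
    funext t; rw [h0 t]
  rw [h2] at h1
  exact h1.unique (hasDerivAt_const _ _)

/-- the equation of `β` -/
private theorem beta_eq {J : Finset (Fin n)} {x : Fin n → ℝ} {R : Fin n → MvPolynomial (Fin n) ℂ}
    {β : Fin n → (Fin n → ℝ) → ℝ}
    (hvars : ∀ j ∉ J, (R j).vars ⊆ insert j J)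
    (hβ : ∀ j ∉ J, ContDiff ℝ ∞ (β j))
    (h0 : ∀ j ∉ J, ∀ᶠ θ in 𝓝 x, pe (R j) (Function.update θ j (β j θ)) = 0) {j : Fin n} (hj : j ∉ J) :
    ∀ᶠ θ in 𝓝 x, ∀ a ∈ J,
      exp (I * (β j θ : ℂ)) * pe (pderiv j (R j)) (Psi J β θ) * (fderiv ℝ (β j) θ (Pi.single a 1) : ℂ)
        = - (exp (I * (θ a : ℂ)) * pe (pderiv a (R j)) (Psi J β θ)) := by
  have h1 : ∀ θ, pe (R j) (Psi J β θ) = pe (R j) (Function.update θ j (β j θ)) := by
    intro θ
    apply pe_congr' (hvars j hj)
    intro k hk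
    rcases Finset.mem_insert.1 hk with rfl | hk
    · simp [Psi, hj]
    · have : k ≠ j := fun h => hj (h ▸ hk)
      simp [Psi, hk, this]
  have h2 : ∀ᶠ θ in 𝓝 x, (fun θ => pe (R j) (Psi J β θ)) =ᶠ[𝓝 θ] fun _ => (0:ℂ) := by
    have : ∀ᶠ θ in 𝓝 x, pe (R j) (Psi J β θ) = 0 := by
      filter_upwards [h0 j hj] with θ hθ
      rw [h1, hθ]
    exact this.eventually_nhds
  filter_upwards [h2] with θ hθ a ha
  have h3 := hθ.fderiv_eq (𝕜 := ℝ)
  have h4 : fderiv ℝ (fun θ => pe (R j) (Psi J β θ)) θ (Pi.single a 1) = 0 := by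
    rw [h3]; simp
  rw [fderiv_comp hβ _ _ ha, Finset.sum_eq_single j] at h4
  · have h5 : I * (exp (I * (θ a : ℂ)) * pe (pderiv a (R j)) (Psi J β θ)
        + exp (I * (β j θ : ℂ)) * pe (pderiv j (R j)) (Psi J β θ) * (fderiv ℝ (β j) θ (Pi.single a 1) : ℂ)) = 0 := by
      rw [← h4]; ring
    rcases mul_eq_zero.1 h5 with h6 | h6
    · exact absurd h6 I_ne_zero
    · rw [eq_neg_iff_add_eq_zero, add_comm]
      exact h6
  · intro k hk hkj
    rw [Finset.mem_compl] at hk
    have : pderiv k (R j) = 0 := by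
      apply pderiv_zero_of (hvars j hj)
      intro h
      rcases Finset.mem_insert.1 h with h | h
      · exact hkj h
      · exact hk h
    rw [this]
    simp [pe]
  · intro h
    exact absurd (Finset.mem_compl.2 hj) h

/-! ### the ideal vanishes on the graph -/

theorem vanish_near {𝔮 : Ideal (MvPolynomial (Fin n) ℂ)} {J : Finset (Fin n)} {x : Fin n → ℝ}
    (hx : ∀ q ∈ 𝔮, pe q x = 0) {R : Fin n → MvPolynomial (Fin n) ℂ} {β : Fin n → (Fin n → ℝ) → ℝ}
    (hvars : ∀ j ∉ J, (R j).vars ⊆ insert j J) (hd : ∀ j ∉ J, pe (pderiv j (R j)) x ≠ 0)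
    (hβ : ∀ j ∉ J, ContDiff ℝ ∞ (β j))
    (hdep : ∀ j ∉ J, ∀ θ θ' : Fin n → ℝ, (∀ k ∈ J, θ k = θ' k) → β j θ = β j θ')
    (hβx : ∀ j ∉ J, β j x = x j)
    (h0 : ∀ j ∉ J, ∀ᶠ θ in 𝓝 x, pe (R j) (Function.update θ j (β j θ)) = 0)
    (htan : ∀ a ∈ J, ∀ q ∈ 𝔮, (∏ j ∈ Jᶜ, pderiv j (R j)) * pderiv a q
      - ∑ j ∈ Jᶜ, (pderiv a (R j) * ∏ j' ∈ Jᶜ.erase j, pderiv j' (R j')) * pderiv j q ∈ 𝔮) :
    ∀ᶠ θ in 𝓝 x, ∀ q ∈ 𝔮, pe q (Psi J β θ) = 0 := by
  classical
  have hΨx : Psi J β x = x := Psi_self hβx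
  have hΨ : ContDiff ℝ ∞ (Psi J β) := contDiff_Psi hβ
  obtain ⟨s, hs⟩ : 𝔮.FG := (isNoetherianRing_iff_ideal_fg _).1 inferInstance 𝔮
  -- the determinant
  set Δ : (Fin n → ℝ) → ℂ := fun θ => ∏ j ∈ Jᶜ, pe (pderiv j (R j)) (Psi J β θ) with hΔ
  have hΔx : Δ x ≠ 0 := by
    simp only [hΔ, hΨx]
    exact Finset.prod_ne_zero_iff.2 fun j hj => hd j (Finset.mem_compl.1 hj)
  have hΔc : Continuous Δ := by
    apply continuous_finsetProd
    intro j _
    exact (contDiff_pe _).continuous.comp hΨ.continuous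
  -- the elements of the ideal
  set T : Fin n → MvPolynomial (Fin n) ℂ → MvPolynomial (Fin n) ℂ := fun a q =>
    (∏ j ∈ Jᶜ, pderiv j (R j)) * pderiv a q
      - ∑ j ∈ Jᶜ, (pderiv a (R j) * ∏ j' ∈ Jᶜ.erase j, pderiv j' (R j')) * pderiv j q with hT
  have hTs : ∀ a ∈ J, ∀ q ∈ 𝔮, ∃ c : MvPolynomial (Fin n) ℂ → MvPolynomial (Fin n) ℂ,
      ∑ l ∈ s, c l * l = T a q := by
    intro a ha q hq
    have h1 : T a q ∈ Ideal.span (s : Set (MvPolynomial (Fin n) ℂ)) := by
      rw [hs]; exact htan a ha q hq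
    obtain ⟨c, -, hc⟩ := Submodule.mem_span_finset.1 h1
    exact ⟨c, by simpa [smul_eq_mul] using hc⟩
  choose! c hc using hTs
  -- the derivative identity
  have hβeq : ∀ᶠ θ in 𝓝 x, ∀ j ∉ J, ∀ a ∈ J,
      exp (I * (β j θ : ℂ)) * pe (pderiv j (R j)) (Psi J β θ) * (fderiv ℝ (β j) θ (Pi.single a 1) : ℂ)
        = - (exp (I * (θ a : ℂ)) * pe (pderiv a (R j)) (Psi J β θ)) := by
    rw [eventually_all]
    intro j
    by_cases hj : j ∈ J
    · exact Eventually.of_forall fun θ h => absurd hj h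
    · filter_upwards [beta_eq hvars hβ h0 hj] with θ hθ _ using hθ
  have hderiv : ∀ᶠ θ in 𝓝 x, ∀ a ∈ J, ∀ q : MvPolynomial (Fin n) ℂ,
      Δ θ * fderiv ℝ (fun θ => pe q (Psi J β θ)) θ (Pi.single a 1)
        = I * exp (I * (θ a : ℂ)) * pe (T a q) (Psi J β θ) := by
    filter_upwards [hβeq] with θ hθ a ha q
    have e1 : pe (T a q) (Psi J β θ) = Δ θ * pe (pderiv a q) (Psi J β θ)
        - ∑ j ∈ Jᶜ, (pe (pderiv a (R j)) (Psi J β θ)
            * ∏ j' ∈ Jᶜ.erase j, pe (pderiv j' (R j')) (Psi J β θ)) * pe (pderiv j q) (Psi J β θ) := by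
      simp only [hT, hΔ, pe, map_sub, map_mul, map_prod, map_sum]
    rw [fderiv_comp hβ q θ ha, e1, mul_add, mul_sub, sub_eq_add_neg]
    congr 1
    · ring
    · rw [Finset.mul_sum, Finset.mul_sum, ← Finset.sum_neg_distrib]
      apply Finset.sum_congr rfl
      intro j hj
      have hj' := Finset.mem_compl.1 hj
      have e2 : Δ θ = pe (pderiv j (R j)) (Psi J β θ)
          * ∏ j' ∈ Jᶜ.erase j, pe (pderiv j' (R j')) (Psi J β θ) :=
        (Finset.mul_prod_erase _ _ hj).symm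
      rw [e2]
      have e3 := hθ j hj' a ha
      linear_combination (I * (∏ j' ∈ Jᶜ.erase j, pe (pderiv j' (R j')) (Psi J β θ))
        * pe (pderiv j q) (Psi J β θ)) * e3
  -- the function
  set F : (Fin n → ℝ) → (s → ℂ) := fun θ i => pe i (Psi J β θ) with hF
  have hcomp : ∀ q, ContDiff ℝ ∞ (fun θ => pe q (Psi J β θ)) := fun q => (contDiff_pe q).comp hΨ
  have hFd : Differentiable ℝ F := by
    rw [differentiable_pi]
    intro i
    exact (hcomp i).differentiable (by simp)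
  have hFx : F x = 0 := by
    funext i
    simp only [hF, hΨx, Pi.zero_apply]
    apply hx
    rw [← hs]
    exact Ideal.subset_span i.2
  have hFapp : ∀ θ v (i : s), fderiv ℝ F θ v i = fderiv ℝ (fun θ => pe i (Psi J β θ)) θ v := by
    intro θ v i
    rw [fderiv_apply (hFd θ) i]
    rfl
  -- the bound
  set G : (Fin n → ℝ) → ℝ := fun θ => ∑ a ∈ J, ∑ i ∈ s, ∑ l ∈ s, ‖pe (c a i l) (Psi J β θ)‖ / ‖Δ θ‖ with hG
  have hGc : ContinuousAt G x := by
    apply tendsto_finsetSum
    intro a _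
    apply tendsto_finsetSum
    intro i _
    apply tendsto_finsetSum
    intro l _
    apply Tendsto.div
    · exact ((hcomp _).continuous.norm).continuousAt
    · exact hΔc.norm.continuousAt
    · exact norm_ne_zero_iff.2 hΔx
  have hG0 : ∀ θ, 0 ≤ G θ := by
    intro θ
    (clear * -; positivity)
  have hGb : ∀ᶠ θ in 𝓝 x, G θ ≤ G x + 1 := by
    filter_upwards [hGc.eventually (eventually_le_nhds (lt_add_one (G x)))] with θ hθ using hθ
  have k1 : ∀ f : MvPolynomial (Fin n) ℂ → ℝ, (∀ i, 0 ≤ f i) → ∀ i ∈ s, f i ≤ ∑ i ∈ s, f i :=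
    fun f hf i hi => Finset.single_le_sum (fun i _ => hf i) hi
  have k2 : ∀ f : Fin n → ℝ, (∀ i, 0 ≤ f i) → ∀ i ∈ J, f i ≤ ∑ i ∈ J, f i :=
    fun f hf i hi => Finset.single_le_sum (fun i _ => hf i) hi
  have hbound : ∀ᶠ θ in 𝓝 x, ‖fderiv ℝ F θ‖ ≤ ((n : ℝ) * (G x + 1)) * ‖F θ‖ := by
    filter_upwards [hGb, hderiv, hΔc.continuousAt.eventually_ne hΔx] with θ hθ1 hθ2 hθ3
    have hcoord : ∀ a : Fin n, ‖fderiv ℝ F θ (Pi.single a 1)‖ ≤ G θ * ‖F θ‖ := by
      intro a
      by_cases ha : a ∈ J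
      · refine (pi_norm_le_iff_of_nonneg (mul_nonneg (hG0 θ) (norm_nonneg _))).2 fun i => ?_
        rw [hFapp]
        have hi : (i : MvPolynomial (Fin n) ℂ) ∈ 𝔮 := by rw [← hs]; exact Ideal.subset_span i.2
        have e1 := hθ2 a ha i
        rw [← hc a ha i hi] at e1
        have e2 : pe (∑ l ∈ s, c a i l * l) (Psi J β θ)
            = ∑ l ∈ s, pe (c a i l) (Psi J β θ) * pe l (Psi J β θ) := by
          simp [pe]
        rw [e2] at e1
        have e3 : ‖Δ θ‖ * ‖fderiv ℝ (fun θ => pe i (Psi J β θ)) θ (Pi.single a 1)‖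
            ≤ ∑ l ∈ s, ‖pe (c a i l) (Psi J β θ)‖ * ‖F θ‖ := by
          rw [← norm_mul, e1, norm_mul, norm_mul, norm_I, one_mul, mul_comm I, norm_exp_ofReal_mul_I, one_mul]
          refine (norm_sum_le _ _).trans (Finset.sum_le_sum fun l hl => ?_)
          rw [norm_mul]
          apply mul_le_mul_of_nonneg_left _ (norm_nonneg _)
          exact norm_le_pi_norm (F θ) ⟨l, hl⟩
        have hΔpos : 0 < ‖Δ θ‖ := norm_pos_iff.2 hθ3
        have e4 : ‖fderiv ℝ (fun θ => pe i (Psi J β θ)) θ (Pi.single a 1)‖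
            ≤ (∑ l ∈ s, ‖pe (c a i l) (Psi J β θ)‖ / ‖Δ θ‖) * ‖F θ‖ := by
          rw [Finset.sum_mul]
          have : ∑ l ∈ s, ‖pe (c a i l) (Psi J β θ)‖ / ‖Δ θ‖ * ‖F θ‖
              = (∑ l ∈ s, ‖pe (c a i l) (Psi J β θ)‖ * ‖F θ‖) / ‖Δ θ‖ := by
            rw [Finset.sum_div]
            apply Finset.sum_congr rfl
            intro l _
            ring
          rw [this, le_div_iff₀ hΔpos, mul_comm]
          exact e3
        refine e4.trans (mul_le_mul_of_nonneg_right ?_ (norm_nonneg _))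
        have e5 := k1 (fun i => ∑ l ∈ s, ‖pe (c a i l) (Psi J β θ)‖ / ‖Δ θ‖)
          (fun i => Finset.sum_nonneg fun l _ => div_nonneg (norm_nonneg _) (norm_nonneg _)) i i.2
        have e6 := k2 (fun a => ∑ i ∈ s, ∑ l ∈ s, ‖pe (c a i l) (Psi J β θ)‖ / ‖Δ θ‖)
          (fun a => Finset.sum_nonneg fun i _ => Finset.sum_nonneg fun l _ =>
            div_nonneg (norm_nonneg _) (norm_nonneg _)) a ha
        exact e5.trans e6
      · have e1 : fderiv ℝ F θ (Pi.single a 1) = 0 :=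
          fderiv_comp_off hdep (fun θ' (i : s) => pe i θ') hFd θ ha
        rw [e1, norm_zero]
        exact mul_nonneg (hG0 θ) (norm_nonneg _)
    refine ContinuousLinearMap.opNorm_le_bound _ (mul_nonneg (mul_nonneg (Nat.cast_nonneg _) (add_nonneg (hG0 x) zero_le_one)) (norm_nonneg _)) fun v => ?_
    have hv : v = ∑ a, v a • (Pi.single a 1 : Fin n → ℝ) := by
      funext k
      simp [Finset.sum_apply, Pi.single_apply]
    calc ‖fderiv ℝ F θ v‖ = ‖∑ a, v a • fderiv ℝ F θ (Pi.single a 1)‖ := by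
          conv_lhs => rw [hv]
          rw [map_sum]
          simp only [map_smul]
      _ ≤ ∑ a, ‖v a • fderiv ℝ F θ (Pi.single a 1)‖ := norm_sum_le _ _
      _ ≤ ∑ _a : Fin n, ‖v‖ * (G θ * ‖F θ‖) := by
          apply Finset.sum_le_sum
          intro a _
          rw [norm_smul]
          exact mul_le_mul (norm_le_pi_norm v a) (hcoord a) (norm_nonneg _) (norm_nonneg _)
      _ = (n : ℝ) * G θ * ‖F θ‖ * ‖v‖ := by
          simp; ring
      _ ≤ (n : ℝ) * (G x + 1) * ‖F θ‖ * ‖v‖ := by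
          apply mul_le_mul_of_nonneg_right _ (norm_nonneg _)
          apply mul_le_mul_of_nonneg_right _ (norm_nonneg _)
          exact mul_le_mul_of_nonneg_left hθ1 (Nat.cast_nonneg _)
  obtain ⟨r, hr, hball⟩ := Metric.eventually_nhds_iff_ball.1 hbound
  have hF0 := eq_zero_of_fderiv_bound (fun y _ => hFd y) hball hFx
  filter_upwards [Metric.ball_mem_nhds x hr] with θ hθ q hq
  rw [← hs] at hq
  have hFθ := hF0 θ hθ
  refine Submodule.span_induction (p := fun q _ => pe q (Psi J β θ) = 0) ?_ ?_ ?_ ?_ hq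
  · intro l hl
    exact congrFun hFθ ⟨l, hl⟩
  · simp [pe]
  · intro a b _ _ ha hb
    have : pe (a + b) (Psi J β θ) = pe a (Psi J β θ) + pe b (Psi J β θ) := by simp [pe]
    rw [this, ha, hb, add_zero]
  · intro a b _ hb
    rw [smul_eq_mul, pe_mul, hb, mul_zero]

/-! ### independence of the rows -/

theorem indep_at {𝔮 : Ideal (MvPolynomial (Fin n) ℂ)} {J : Finset (Fin n)} {x : Fin n → ℝ}
    (hx : ∀ q ∈ 𝔮, pe q x = 0) {R : Fin n → MvPolynomial (Fin n) ℂ} {β : Fin n → (Fin n → ℝ) → ℝ}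
    (hR : ∀ j ∉ J, R j ∈ 𝔮)
    (hvars : ∀ j ∉ J, (R j).vars ⊆ insert j J) (hd : ∀ j ∉ J, pe (pderiv j (R j)) x ≠ 0)
    (hβ : ∀ j ∉ J, ContDiff ℝ ∞ (β j))
    (hdep : ∀ j ∉ J, ∀ θ θ' : Fin n → ℝ, (∀ k ∈ J, θ k = θ' k) → β j θ = β j θ')
    (hβx : ∀ j ∉ J, β j x = x j)
    (h0 : ∀ j ∉ J, ∀ᶠ θ in 𝓝 x, pe (R j) (Function.update θ j (β j θ)) = 0)
    {JB : Finset (Fin n)}
    (hder : ∀ b ∈ JB, ∃ (H : MvPolynomial (Fin n) ℂ) (A : Fin n → MvPolynomial (Fin n) ℂ),
      pe H x ≠ 0 ∧ A b - H ∈ 𝔮 ∧ (∀ b' ∈ JB, b' ≠ b → A b' ∈ 𝔮) ∧ ∀ q ∈ 𝔮, ∑ k, A k * pderiv k q ∈ 𝔮) :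
    LinearIndepOn ℝ (row (Psi J β) x) (JB : Set (Fin n)) := by
  classical
  have hΨx : Psi J β x = x := Psi_self hβx
  rw [linearIndepOn_finset_iff]
  intro c hc b hb
  obtain ⟨H, A, hH, hAb, hAb', hA⟩ := hder b hb
  -- the key identity
  have hkey : ∀ k, ∑ a ∈ J, pe (A a) x * exp (-(I * (x a : ℂ))) * (row (Psi J β) x k (Pi.single a 1) : ℂ)
      = pe (A k) x * exp (-(I * (x k : ℂ))) := by
    intro k
    by_cases hk : k ∈ J
    · rw [Finset.sum_eq_single k]
      · rw [row_apply, fderiv_Psi hβ, if_pos hk]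
        simp
      · intro a ha hak
        rw [row_apply, fderiv_Psi hβ, if_pos hk]
        simp [Ne.symm hak]
      · intro h; exact absurd hk h
    · have e1 : ∀ a ∈ J, exp (I * (x k : ℂ)) * pe (pderiv k (R k)) x * (fderiv ℝ (β k) x (Pi.single a 1) : ℂ)
          = - (exp (I * (x a : ℂ)) * pe (pderiv a (R k)) x) := by
        have := (beta_eq hvars hβ h0 hk).self_of_nhds
        rw [hΨx, hβx k hk] at this
        exact this
      have e2 : ∑ l, pe (A l) x * pe (pderiv l (R k)) x = 0 := by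
        have := hx _ (hA _ (hR k hk))
        simpa [pe] using this
      have e3 : ∑ l, pe (A l) x * pe (pderiv l (R k)) x
          = ∑ a ∈ J, pe (A a) x * pe (pderiv a (R k)) x + pe (A k) x * pe (pderiv k (R k)) x := by
        rw [← Finset.sum_add_sum_compl J]
        congr 1
        apply Finset.sum_eq_single k
        · intro l hl hlk
          rw [Finset.mem_compl] at hl
          have : pderiv l (R k) = 0 := by
            apply pderiv_zero_of (hvars k hk)
            intro h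
            rcases Finset.mem_insert.1 h with h | h
            · exact hlk h
            · exact hl h
          rw [this]
          simp [pe]
        · intro h; exact absurd (Finset.mem_compl.2 hk) h
      have hne : exp (I * (x k : ℂ)) * pe (pderiv k (R k)) x ≠ 0 := mul_ne_zero (exp_ne_zero _) (hd k hk)
      apply mul_left_cancel₀ hne
      rw [Finset.mul_sum]
      have e4 : ∀ a ∈ J, exp (I * (x k : ℂ)) * pe (pderiv k (R k)) x *
            (pe (A a) x * exp (-(I * (x a : ℂ))) * (row (Psi J β) x k (Pi.single a 1) : ℂ))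
          = - (pe (A a) x * pe (pderiv a (R k)) x) := by
        intro a ha
        rw [row_apply, fderiv_Psi hβ, if_neg hk]
        have e5 : exp (-(I * (x a : ℂ))) * exp (I * (x a : ℂ)) = 1 := by
          rw [← exp_add]; simp
        linear_combination (pe (A a) x * exp (-(I * (x a : ℂ)))) * e1 a ha
          - (pe (A a) x * pe (pderiv a (R k)) x) * e5
      rw [Finset.sum_congr rfl e4, Finset.sum_neg_distrib]
      have e6 : exp (I * (x k : ℂ)) * exp (-(I * (x k : ℂ))) = 1 := by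
        rw [← exp_add]; simp
      rw [e2] at e3
      linear_combination e3 - (pe (pderiv k (R k)) x * pe (A k) x) * e6
  have hsum : ∑ k ∈ JB, (c k : ℂ) * (pe (A k) x * exp (-(I * (x k : ℂ)))) = 0 := by
    have e1 : ∀ a, ∑ k ∈ JB, (c k : ℂ) * (row (Psi J β) x k (Pi.single a 1) : ℂ) = 0 := by
      intro a
      have := DFunLike.congr_fun hc (Pi.single a 1)
      simp only [FunLike.coe_sum, Finset.sum_apply, FunLike.coe_smul, Pi.smul_apply, smul_eq_mul,
        zero_apply] at this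
      exact_mod_cast this
    calc ∑ k ∈ JB, (c k : ℂ) * (pe (A k) x * exp (-(I * (x k : ℂ))))
        = ∑ k ∈ JB, ∑ a ∈ J, (c k : ℂ) * (pe (A a) x * exp (-(I * (x a : ℂ)))
            * (row (Psi J β) x k (Pi.single a 1) : ℂ)) := by
          apply Finset.sum_congr rfl
          intro k _
          rw [← hkey k, Finset.mul_sum]
      _ = ∑ a ∈ J, ∑ k ∈ JB, (pe (A a) x * exp (-(I * (x a : ℂ))))
            * ((c k : ℂ) * (row (Psi J β) x k (Pi.single a 1) : ℂ)) := by
          rw [Finset.sum_comm]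
          apply Finset.sum_congr rfl
          intro a _
          apply Finset.sum_congr rfl
          intro k _
          ring
      _ = 0 := by
          apply Finset.sum_eq_zero
          intro a _
          rw [← Finset.mul_sum, e1 a, mul_zero]
  rw [Finset.sum_eq_single b] at hsum
  · have hAbx : pe (A b) x = pe H x := by
      have := hx _ hAb
      have e : pe (A b - H) x = pe (A b) x - pe H x := by simp [pe]
      rw [e] at this
      exact sub_eq_zero.1 this
    rw [hAbx] at hsum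
    rcases mul_eq_zero.1 hsum with h | h
    · exact_mod_cast h
    · exact absurd h (mul_ne_zero hH (exp_ne_zero _))
  · intro b' hb' hne
    rw [hx _ (hAb' b' hb' hne)]
    simp
  · intro h; exact absurd hb h

end Pool.Agent.Helper49.FA
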