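import Mathlib

/-!
# Scalar certificates for the positivity of the intersection form
-/

namespace Pool.Agent.Helper21.HLF

/-- potential before an even step -/
noncomputable def Pa (i j s t : ℝ) : ℝ :=
  -((5 * i - 1) / (5 * i * j + 4 * i - j)) * (s + j / 2 * t) ^ 2 + (j / 4 + 1 / 5) * t ^ 2

/-- potential before an odd step -/
noncomputable def Pb (i j s t : ℝ) : ℝ :=
  -(1 / j) * (s + j * t - 2 / 5 * t) ^ 2 + t * (s + j * t - 2 / 5 * t) + t ^ 2 / (25 * i)

lemma even_step (i j s t X : ℝ) (hi : 1 ≤ i) (hj : 1 ≤ j) :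
    4 * (1 / 5 + 4 / (25 * j) - 1 / (25 * i)) *
      (Pa i j s t + X * (s + j * t) - X ^ 2 / 5 - Pb i j (s + X * (-j)) (t + X)) =
      (2 * (1 / 5 + 4 / (25 * j) - 1 / (25 * i)) * X +
        (-(4 / (5 * j)) * (s + j * t - 2 / 5 * t) + (4 / 5 - 2 / (25 * i)) * t)) ^ 2 := by
  have h1 : i ≠ 0 := by positivity
  have h2 : j ≠ 0 := by positivity
  have h3 : 5 * i * j + 4 * i - j ≠ 0 := by nlinarith
  have he : ((5 * i - 1) / (5 * i * j + 4 * i - j)) * (5 * i * j + 4 * i - j) = 5 * i - 1 :=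
    div_mul_cancel₀ _ h3
  unfold Pa Pb
  generalize (5 * i - 1) / (5 * i * j + 4 * i - j) = e at he
  field_simp
  linear_combination (-62500 * i * j * (2 * s + j * t) ^ 2) * he

lemma even_gamma (i j : ℝ) (hi : 1 ≤ i) (hj : 1 ≤ j) :
    0 < 1 / 5 + 4 / (25 * j) - 1 / (25 * i) := by
  have h1 : 1 / (25 * i) ≤ 1 / 25 := by
    apply one_div_le_one_div_of_le <;> linarith
  have h2 : 0 < 4 / (25 * j) := by positivity
  linarith

lemma odd_step (i j s t X : ℝ) (hi : 1 ≤ i) (hj : 1 ≤ j) :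
    ∃ c : ℝ, 4 * (j * i / (5 * i * j - i + 4 * j)) *
      (Pb i j s t + X * (2 * s + (2 * j - 1) * t) - X ^ 2 / 5 -
        Pa (i + 1) (j - 1) (s + X * (1 - 2 * j)) (t + 2 * X)) =
      (2 * (j * i / (5 * i * j - i + 4 * j)) * X + c) ^ 2 ∧ (s = 0 → t = 0 → c = 0) := by
  have h1 : i ≠ 0 := by positivity
  have h2 : j ≠ 0 := by positivity
  have h3 : 5 * i * j - i + 4 * j ≠ 0 := by nlinarith
  have h4 : 5 * (i + 1) * (j - 1) + 4 * (i + 1) - (j - 1) = 5 * i * j - i + 4 * j := by ring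
  have h5 : 5 * (i + 1) - 1 = 5 * i + 4 := by ring
  have he : ((5 * i + 4) / (5 * i * j - i + 4 * j)) * (5 * i * j - i + 4 * j) = 5 * i + 4 :=
    div_mul_cancel₀ _ h3
  have hg : j * i / (5 * i * j - i + 4 * j) =
      j * (j * ((5 * i + 4) / (5 * i * j - i + 4 * j)) - 1) := by
    rw [div_eq_iff h3]
    linear_combination (-(j * j)) * he
  rw [hg]
  unfold Pa Pb
  rw [h4, h5]
  generalize (5 * i + 4) / (5 * i * j - i + 4 * j) = e at he
  refine ⟨2 * s + (2 * j - 1) * t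
          - 2 * (-e * ((s + (j - 1) / 2 * t) * (-j)) + ((j - 1) / 4 + 1 / 5) * (t * 2)), ?_, ?_⟩
  · field_simp
    linear_combination (1600 * j * t ^ 2) * he
  · rintro rfl rfl
    ring

lemma odd_gamma (i j : ℝ) (hi : 1 ≤ i) (hj : 1 ≤ j) :
    0 < j * i / (5 * i * j - i + 4 * j) := by
  have : 0 < 5 * i * j - i + 4 * j := by nlinarith
  positivity

end Pool.Agent.Helper21.HLF
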