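import Mathlib
import Pool.Agent.Helper21.HLFCert

/-!
# The chain of potentials for the extremal sequence of `SL_2` transvections
-/

namespace Pool.Agent.Helper21.HLF

/-- the vectors of the extremal sequence -/
def uu (k : ℕ) (r : ℕ) : ℤ × ℤ :=
  if r = 2 * k + 1 then (2, 5)
  else if r = 0 then (1, 0)
  else if r % 2 = 0 then (((r / 2 : ℕ) : ℤ) - (k : ℤ), 1)
  else (1 - 2 * ((k : ℤ) - ((r / 2 : ℕ) : ℤ)), 2)

/-- the widths of the extremal sequence -/
def cc (k r : ℕ) : ℕ := if r = 0 ∨ r = 2 * k + 1 then k else 5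

lemma uu_zero (k : ℕ) : uu k 0 = (1, 0) := by
  unfold uu
  simp

lemma uu_last (k : ℕ) : uu k (2 * k + 1) = (2, 5) := by
  unfold uu
  simp

lemma uu_even (k m : ℕ) (hm : 1 ≤ m) : uu k (2 * m) = ((m : ℤ) - k, 1) := by
  unfold uu
  rw [if_neg (by omega), if_neg (by omega), if_pos (by omega)]
  congr 3
  omega

lemma uu_odd (k m : ℕ) (hm : m < k) : uu k (2 * m + 1) = (1 - 2 * ((k : ℤ) - m), 2) := by
  unfold uu
  rw [if_neg (by omega), if_neg (by omega), if_neg (by omega)]
  have : (2 * m + 1) / 2 = m := by omega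
  rw [this]

lemma cc_zero (k : ℕ) : cc k 0 = k := by simp [cc]

lemma cc_last (k : ℕ) : cc k (2 * k + 1) = k := by simp [cc]

lemma cc_mid (k r : ℕ) (h0 : r ≠ 0) (h1 : r ≠ 2 * k + 1) : cc k r = 5 := by
  unfold cc
  rw [if_neg]
  tauto

/-- position of the path after `r` steps -/
noncomputable def SS (k : ℕ) (X : ℕ → ℝ) : ℕ → ℝ × ℝ
  | 0 => (0, 0)
  | r + 1 => ((SS k X r).1 + X r * ((uu k r).1 : ℝ), (SS k X r).2 + X r * ((uu k r).2 : ℝ))

/-- value of the form after `r` steps -/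
noncomputable def QQ (k : ℕ) (X : ℕ → ℝ) : ℕ → ℝ
  | 0 => 0
  | r + 1 => QQ k X r +
      X r * ((SS k X r).1 * ((uu k r).2 : ℝ) - (SS k X r).2 * ((uu k r).1 : ℝ)) -
      X r ^ 2 / (cc k r : ℝ)

lemma SS_zero_of (k : ℕ) (X : ℕ → ℝ) (r : ℕ) (h : ∀ i < r, X i = 0) : SS k X r = (0, 0) := by
  induction r with
  | zero => rfl
  | succ r ih =>
    rw [SS, ih fun i hi => h i (by omega), h r (by omega)]
    simp

lemma sq_nonneg_of_mul {c D y : ℝ} (hc : 0 < c) (h : 4 * c * D = y ^ 2) : 0 ≤ D := by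
  by_contra hD
  push Not at hD
  have : 4 * c * D < 0 := by
    apply mul_neg_of_pos_of_neg _ hD
    linarith
  nlinarith [sq_nonneg y]

theorem chain (k : ℕ) (X : ℕ → ℝ) (m : ℕ) (h1 : 1 ≤ m) (h2 : m ≤ k) :
    0 ≤ QQ k X (2 * m) - Pa m ((k : ℝ) - m) (SS k X (2 * m)).1 (SS k X (2 * m)).2 ∧
    (X 0 = 0 → X 1 = 0 →
      QQ k X (2 * m) - Pa m ((k : ℝ) - m) (SS k X (2 * m)).1 (SS k X (2 * m)).2 = 0 →
      ∀ r < 2 * m, X r = 0) := by
  induction m, h1 using Nat.le_induction with
  | base =>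
    have hk : (1 : ℝ) ≤ k := by exact_mod_cast h2
    have e0 : uu k 0 = (1, 0) := uu_zero k
    have e1 : uu k 1 = (1 - 2 * ((k : ℤ) - (0 : ℕ)), 2) := uu_odd k 0 (by omega)
    have c0 : cc k 0 = k := cc_zero k
    have c1 : cc k 1 = 5 := cc_mid k 1 (by omega) (by omega)
    have hP : QQ k X (2 * 1) -
        Pa (1 : ℕ) ((k : ℝ) - (1 : ℕ)) (SS k X (2 * 1)).1 (SS k X (2 * 1)).2 = 0 := by
      show QQ k X 2 - Pa (1 : ℕ) ((k : ℝ) - (1 : ℕ)) (SS k X 2).1 (SS k X 2).2 = 0
      simp only [QQ, SS, e0, e1, c0, c1, Pa]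
      push_cast
      have h3 : (5 * 1 * ((k : ℝ) - 1) + 4 * 1 - (k - 1)) = 4 * k := by ring
      rw [h3]
      have h4 : (k : ℝ) ≠ 0 := by positivity
      field_simp
      ring
    constructor
    · exact le_of_eq hP.symm
    · intro hX0 hX1 _ r hr
      have : r = 0 ∨ r = 1 := by omega
      rcases this with rfl | rfl
      · exact hX0
      · exact hX1
  | succ m hm ih =>
    obtain ⟨ih1, ih2⟩ := ih (by omega)
    have hi : (1 : ℝ) ≤ m := by exact_mod_cast hm
    have hj : (1 : ℝ) ≤ (k : ℝ) - m := by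
      have : ((m + 1 : ℕ) : ℝ) ≤ k := by exact_mod_cast h2
      push_cast at this
      linarith
    set s := (SS k X (2 * m)).1 with hs
    set t := (SS k X (2 * m)).2 with ht
    set x := X (2 * m) with hx
    set x' := X (2 * m + 1) with hx'
    set j : ℝ := (k : ℝ) - m with hjdef
    have ue := uu_even k m hm
    have uo := uu_odd k m (by omega)
    have ce : cc k (2 * m) = 5 := cc_mid k _ (by omega) (by omega)
    have co : cc k (2 * m + 1) = 5 := cc_mid k _ (by omega) (by omega)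
    have hS1 : SS k X (2 * m + 1) = (s + x * (-j), t + x) := by
      rw [SS, ue]
      push_cast
      rw [← hs, ← ht, ← hx, hjdef]
      ext <;> simp
    have hQ1 : QQ k X (2 * m + 1) = QQ k X (2 * m) + x * (s + j * t) - x ^ 2 / 5 := by
      rw [QQ, ue, ce]
      push_cast
      rw [← hs, ← ht, ← hx, hjdef]
      ring
    have hS2 : SS k X (2 * m + 1 + 1) =
        ((s + x * (-j)) + x' * (1 - 2 * j), (t + x) + 2 * x') := by
      rw [SS, uo, hS1]
      push_cast
      rw [← hx', hjdef]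
      ext <;> simp
      ring
    have hQ2 : QQ k X (2 * m + 1 + 1) = QQ k X (2 * m + 1) +
        x' * (2 * (s + x * (-j)) + (2 * j - 1) * (t + x)) - x' ^ 2 / 5 := by
      rw [QQ, uo, co, hS1]
      push_cast
      rw [← hx', hjdef]
      ring
    have hcast : ((m + 1 : ℕ) : ℝ) = (m : ℝ) + 1 := by push_cast; ring
    have hj' : (k : ℝ) - ((m + 1 : ℕ) : ℝ) = j - 1 := by
      rw [hcast, hjdef]
      ring
    have h2m : 2 * (m + 1) = 2 * m + 1 + 1 := by ring
    rw [h2m, hj', hcast, hS2, hQ2, hQ1]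
    have E := even_step m j s t x hi hj
    have EG := even_gamma m j hi hj
    obtain ⟨c, O, Oc⟩ := odd_step m j (s + x * (-j)) (t + x) x' hi hj
    have OG := odd_gamma m j hi hj
    set D1 := Pa m j s t + x * (s + j * t) - x ^ 2 / 5 - Pb m j (s + x * (-j)) (t + x) with hD1
    set D2 := Pb m j (s + x * (-j)) (t + x) +
      x' * (2 * (s + x * (-j)) + (2 * j - 1) * (t + x)) - x' ^ 2 / 5 -
        Pa (m + 1) (j - 1) (s + x * (-j) + x' * (1 - 2 * j)) (t + x + 2 * x') with hD2
    have hD1n : 0 ≤ D1 := sq_nonneg_of_mul EG E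
    have hD2n : 0 ≤ D2 := sq_nonneg_of_mul OG O
    have hsum : QQ k X (2 * m) + x * (s + j * t) - x ^ 2 / 5 +
        x' * (2 * (s + x * (-j)) + (2 * j - 1) * (t + x)) - x' ^ 2 / 5 -
        Pa ((m : ℝ) + 1) (j - 1) (s + x * (-j) + x' * (1 - 2 * j)) (t + x + 2 * x') =
        (QQ k X (2 * m) - Pa m j s t) + D1 + D2 := by
      rw [hD1, hD2]
      ring
    rw [hsum]
    constructor
    · linarith
    · intro hX0 hX1 h0
      have z0 : QQ k X (2 * m) - Pa m j s t = 0 := by linarith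
      have z1 : D1 = 0 := by linarith
      have z2 : D2 = 0 := by linarith
      have hall := ih2 hX0 hX1 z0
      have hSz := SS_zero_of k X (2 * m) hall
      have hs0 : s = 0 := by rw [hs, hSz]
      have ht0 : t = 0 := by rw [ht, hSz]
      rw [z1, hs0, ht0] at E
      simp only [mul_zero, add_zero, sub_zero] at E
      have hx0 : x = 0 := by
        have h5 : 2 * (1 / 5 + 4 / (25 * j) - 1 / (25 * (m : ℝ))) * x = 0 := by
          have := E.symm
          exact pow_eq_zero_iff (two_ne_zero) |>.mp this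
        rcases mul_eq_zero.mp h5 with h6 | h6
        · exfalso
          have : 0 < 2 * (1 / 5 + 4 / (25 * j) - 1 / (25 * (m : ℝ))) := by linarith
          exact this.ne' h6
        · exact h6
      have hc0 : c = 0 := by
        apply Oc
        · rw [hs0, hx0]; ring
        · rw [ht0, hx0]; ring
      rw [z2, hc0] at O
      simp only [mul_zero, add_zero] at O
      have hx'0 : x' = 0 := by
        have h5 : 2 * (j * (m : ℝ) / (5 * (m : ℝ) * j - m + 4 * j)) * x' = 0 :=
          pow_eq_zero_iff (two_ne_zero) |>.mp O.symm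
        rcases mul_eq_zero.mp h5 with h6 | h6
        · exfalso
          have : 0 < 2 * (j * (m : ℝ) / (5 * (m : ℝ) * j - m + 4 * j)) := by linarith
          exact this.ne' h6
        · exact h6
      intro r hr
      have : r < 2 * m ∨ r = 2 * m ∨ r = 2 * m + 1 := by omega
      rcases this with h | rfl | rfl
      · exact hall r h
      · exact hx0
      · exact hx'0

theorem final_step (k : ℕ) (hk : 1 ≤ k) (X : ℕ → ℝ) (hS : SS k X (2 * k + 2) = (0, 0)) :
    QQ k X (2 * k + 2) = QQ k X (2 * k) -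
      Pa k ((k : ℝ) - k) (SS k X (2 * k)).1 (SS k X (2 * k)).2 := by
  have hk' : (1 : ℝ) ≤ k := by exact_mod_cast hk
  set s := (SS k X (2 * k)).1 with hs
  set t := (SS k X (2 * k)).2 with ht
  set x := X (2 * k) with hx
  set y := X (2 * k + 1) with hy
  have ue := uu_even k k hk
  have ul := uu_last k
  have ce : cc k (2 * k) = 5 := cc_mid k _ (by omega) (by omega)
  have cl := cc_last k
  have hS1 : SS k X (2 * k + 1) = (s, t + x) := by
    rw [SS, ue]
    push_cast
    rw [← hs, ← ht, ← hx]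
    ext <;> simp
  have hS2 : SS k X (2 * k + 2) = (s + y * 2, t + x + y * 5) := by
    rw [SS, ul, hS1]
    push_cast
    rw [← hy]
  have hQ1 : QQ k X (2 * k + 1) = QQ k X (2 * k) + x * s - x ^ 2 / 5 := by
    rw [QQ, ue, ce]
    push_cast
    rw [← hs, ← ht, ← hx]
    ring
  have hQ2 : QQ k X (2 * k + 2) = QQ k X (2 * k + 1) +
      y * (s * 5 - (t + x) * 2) - y ^ 2 / k := by
    rw [QQ, ul, cl, hS1]
    push_cast
    rw [← hy]
  rw [hS] at hS2
  have a1 : s = - (y * 2) := by
    have := congrArg Prod.fst hS2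
    simp only at this
    linarith
  have a2 : t = -(x + y * 5) := by
    have := congrArg Prod.snd hS2
    simp only at this
    linarith
  rw [hQ2, hQ1, a1, a2]
  unfold Pa
  have h3 : 5 * (k : ℝ) * (k - k) + 4 * k - (k - k) = 4 * k := by ring
  rw [h3]
  have h4 : (k : ℝ) ≠ 0 := by positivity
  field_simp
  ring

theorem QQ_nonneg (k : ℕ) (hk : 1 ≤ k) (X : ℕ → ℝ) (hS : SS k X (2 * k + 2) = (0, 0)) :
    0 ≤ QQ k X (2 * k + 2) := by
  rw [final_step k hk X hS]
  exact (chain k X k hk le_rfl).1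

theorem QQ_zero (k : ℕ) (hk : 1 ≤ k) (X : ℕ → ℝ) (hS : SS k X (2 * k + 2) = (0, 0))
    (h0 : X 0 = 0) (h1 : X 1 = 0) (hQ : QQ k X (2 * k + 2) = 0) :
    ∀ r < 2 * k + 2, X r = 0 := by
  rw [final_step k hk X hS] at hQ
  have hall := (chain k X k hk le_rfl).2 h0 h1 hQ
  have hSz := SS_zero_of k X (2 * k) hall
  have ue := uu_even k k hk
  have ul := uu_last k
  have hS2 : SS k X (2 * k + 2) =
      (X (2 * k + 1) * 2, X (2 * k) + X (2 * k + 1) * 5) := by
    rw [SS, SS, ul, ue, hSz]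
    push_cast
    ext <;> simp
  rw [hS] at hS2
  have a1 := congrArg Prod.fst hS2
  have a2 := congrArg Prod.snd hS2
  simp only at a1 a2
  intro r hr
  have : r < 2 * k ∨ r = 2 * k ∨ r = 2 * k + 1 := by omega
  rcases this with h | rfl | rfl
  · exact hall r h
  · linarith
  · linarith

end Pool.Agent.Helper21.HLF
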