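import Mathlib

/-!
# Homological Lefschetz fibrations over the 2-sphere

The data that the homology of a genus `g` Lefschetz fibration over the 2-sphere sees: the
vanishing cycles `v 1, ..., v n` in `H_1(fibre; ℤ) = ℤ^{2g}` with its intersection pairing, and
the monodromy relation `T_{v 1} ∘ ... ∘ T_{v n} = 1` between the Picard-Lefschetz transvections.
-/

namespace Pool.Agent.Helper21.HLF

/-- `H_1` of a closed oriented surface of genus `g`, as `g` hyperbolic planes. -/
abbrev Lat (g : ℕ) := Fin g → ℤ × ℤ

/-- The intersection pairing on `Lat g`. -/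
def om {g : ℕ} (u v : Lat g) : ℤ := ∑ k, ((u k).1 * (v k).2 - (u k).2 * (v k).1)

/-- The Picard-Lefschetz transvection along `v`. -/
def transv {g : ℕ} (v x : Lat g) : Lat g := x + om v x • v

/-- `v` is primitive: no integer other than `1` and `-1` divides it. -/
def Primitive {g : ℕ} (v : Lat g) : Prop :=
  ∀ d : ℤ, (∀ k, d ∣ (v k).1 ∧ d ∣ (v k).2) → IsUnit d

/-- A homological Lefschetz fibration of genus `g` over the 2-sphere with nonseparating
vanishing cycles: primitive classes `v 0, ..., v (n-1)` in `H_1` of the fibre such that the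
product of the transvections `T_{v 0} ∘ ... ∘ T_{v (n-1)}` is the identity. -/
structure Fibration (g : ℕ) where
  /-- number of singular fibres -/
  n : ℕ
  /-- vanishing cycles -/
  v : Fin n → Lat g
  prim : ∀ i, Primitive (v i)
  monodromy : ∀ x : Lat g, (List.ofFn v).foldr transv x = x

namespace Fibration

variable {g : ℕ} (F : Fibration g)

/-- `x` is a cycle: the combination `∑ x_i v_i` of vanishing cycles is zero in homology with real
coefficients, so that the corresponding combination of thimbles closes up. -/
def IsCycle (x : Fin F.n → ℝ) : Prop :=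
  ∀ k, ∑ i, x i * ((F.v i k).1 : ℝ) = 0 ∧ ∑ i, x i * ((F.v i k).2 : ℝ) = 0

/-- The intersection form on combinations of thimbles: every thimble has square `-1` and
two thimbles `i < j` contribute the intersection number of their vanishing cycles. -/
noncomputable def form (x : Fin F.n → ℝ) : ℝ :=
  (∑ i, ∑ j, if i < j then x i * x j * (om (F.v i) (F.v j) : ℝ) else 0) - ∑ i, x i ^ 2

/-- The largest dimension of a space of cycles on which the intersection form is positive
definite. -/
noncomputable def posIndex : ℕ :=
  sSup {d : ℕ | ∃ f : (Fin d → ℝ) →ₗ[ℝ] (Fin F.n → ℝ),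
    (∀ y, F.IsCycle (f y)) ∧ ∀ y, y ≠ 0 → 0 < F.form (f y)}

/-- The largest dimension of a space of cycles on which the intersection form is negative
definite. -/
noncomputable def negIndex : ℕ :=
  sSup {d : ℕ | ∃ f : (Fin d → ℝ) →ₗ[ℝ] (Fin F.n → ℝ),
    (∀ y, F.IsCycle (f y)) ∧ ∀ y, y ≠ 0 → F.form (f y) < 0}

/-- `b^+`: the cycles of thimbles and the hyperbolic pair (fibre, section). -/
noncomputable def bPlus : ℕ := F.posIndex + 1

/-- `b^-`: the cycles of thimbles and the hyperbolic pair (fibre, section). -/
noncomputable def bMinus : ℕ := F.negIndex + 1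

/-- The classes of `H_1` of the fibre orthogonal to all vanishing cycles. -/
def orth : Submodule ℤ (Lat g) where
  carrier := {x | ∀ i, om (F.v i) x = 0}
  add_mem' := by
    intro a b ha hb i
    have h1 := ha i
    have h2 := hb i
    simp only [om] at h1 h2 ⊢
    have : ∀ k, ((F.v i k).1 * ((a + b) k).2 - (F.v i k).2 * ((a + b) k).1) =
        ((F.v i k).1 * (a k).2 - (F.v i k).2 * (a k).1) +
        ((F.v i k).1 * (b k).2 - (F.v i k).2 * (b k).1) := by
      intro k
      simp only [Pi.add_apply, Prod.fst_add, Prod.snd_add]
      ring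
    rw [Finset.sum_congr rfl fun k _ => this k, Finset.sum_add_distrib, h1, h2, add_zero]
  zero_mem' := by
    intro i
    simp [om]
  smul_mem' := by
    intro c a ha i
    have h1 := ha i
    simp only [om] at h1 ⊢
    have : ∀ k, ((F.v i k).1 * ((c • a) k).2 - (F.v i k).2 * ((c • a) k).1) =
        c * ((F.v i k).1 * (a k).2 - (F.v i k).2 * (a k).1) := by
      intro k
      simp only [Pi.smul_apply, Prod.smul_fst, Prod.smul_snd, smul_eq_mul]
      ring
    rw [Finset.sum_congr rfl fun k _ => this k, ← Finset.mul_sum, h1, mul_zero]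

/-- First Betti number: `H^1` of the total space consists of the classes of the fibre that
vanish on all vanishing cycles. -/
noncomputable def b1 : ℕ := Module.finrank ℤ F.orth

/-- Euler characteristic `4 - 4g + n`, which is `c_2`. -/
def c2 : ℤ := 4 - 4 * (g : ℤ) + F.n

/-- Signature. -/
noncomputable def sig : ℤ := (F.bPlus : ℤ) - F.bMinus

/-- `c_1^2 = 2 e + 3 σ`. -/
noncomputable def c1sq : ℤ := 2 * F.c2 + 3 * F.sig

end Fibration

end Pool.Agent.Helper21.HLF
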