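import Mathlib
import Pool.Agent.Helper21.HLFChain
import Pool.Agent.Helper21.HLFDefs

/-!
# The genus 2 family
-/

namespace Pool.Agent.Helper21.HLF

open Finset

/-! ### General recursion formulas -/

/-- the form along a sequence -/
noncomputable def Qs {g : ℕ} (w : ℕ → Lat g) (x : ℕ → ℝ) : ℕ → ℝ
  | 0 => 0
  | m + 1 => Qs w x m + x m * (∑ i ∈ range m, x i * (om (w i) (w m) : ℝ)) - x m ^ 2

lemma form_eq_Qs {g : ℕ} (w : ℕ → Lat g) (x : ℕ → ℝ) (n : ℕ) :
    (∑ i : Fin n, ∑ j : Fin n, if i < j then x i * x j * (om (w i) (w j) : ℝ) else 0) -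
      ∑ i : Fin n, x i ^ 2 = Qs w x n := by
  induction n with
  | zero => simp [Qs]
  | succ n ih =>
    rw [Qs, ← ih]
    simp only [Fin.sum_univ_castSucc, Fin.val_castSucc, Fin.val_last]
    have h1 : ∀ i : Fin n, (if Fin.castSucc i < Fin.last n then
        x i * x n * (om (w i) (w n) : ℝ) else 0) = x i * x n * (om (w i) (w n) : ℝ) := by
      intro i
      rw [if_pos (Fin.castSucc_lt_last i)]
    have h2 : ∀ j : Fin n, (if Fin.last n < Fin.castSucc j then
        x n * x j * (om (w n) (w j) : ℝ) else 0) = 0 := by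
      intro j
      rw [if_neg]
      exact not_lt.mpr (Fin.le_last _)
    have h3 : ∀ i j : Fin n, (if Fin.castSucc i < Fin.castSucc j then
        x i * x j * (om (w i) (w j) : ℝ) else 0) =
        if i < j then x i * x j * (om (w i) (w j) : ℝ) else 0 := by
      intro i j
      simp only [Fin.castSucc_lt_castSucc_iff]
    simp only [h1, h2, h3, lt_self_iff_false, if_false, sum_const_zero, add_zero]
    rw [sum_add_distrib, Finset.mul_sum, Finset.sum_range]
    have h4 : ∀ i : Fin n, x i * x n * (om (w i) (w n) : ℝ) =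
        x n * (x i * (om (w i) (w n) : ℝ)) := by
      intro i; ring
    rw [sum_congr rfl fun i _ => h4 i]
    ring

lemma Mon_succ {g : ℕ} (w : ℕ → Lat g) (n : ℕ) (x : Lat g) :
    (List.ofFn fun i : Fin (n + 1) => w i).foldr transv x =
      (List.ofFn fun i : Fin n => w i).foldr transv (transv (w n) x) := by
  rw [List.ofFn_succ']
  simp [List.concat_eq_append, List.foldr_append]

/-! ### The family -/

/-- the two coefficients attached to a width -/
def pq (k : ℕ) (a b : ℤ) (r : ℕ) : ℤ × ℤ := if r = 0 ∨ r = 2 * k + 1 then (a, b) else (1, 2)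

lemma pq_sq (k : ℕ) (a b : ℤ) (hab : a ^ 2 + b ^ 2 = k) (r : ℕ) :
    (pq k a b r).1 ^ 2 + (pq k a b r).2 ^ 2 = (cc k r : ℤ) := by
  unfold pq cc
  split_ifs
  · exact hab
  · norm_num

lemma pq_coprime (k : ℕ) (a b : ℤ) (hab : IsCoprime a b) (r : ℕ) :
    IsCoprime (pq k a b r).1 (pq k a b r).2 := by
  unfold pq
  split_ifs
  · exact hab
  · exact ⟨1, 0, by norm_num⟩

lemma uu_coprime (k r : ℕ) : IsCoprime (uu k r).1 (uu k r).2 := by
  unfold uu
  split_ifs
  · exact ⟨-2, 1, by norm_num⟩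
  · exact ⟨1, 0, by norm_num⟩
  · exact ⟨0, 1, by norm_num⟩
  · exact ⟨1, (k : ℤ) - ((r / 2 : ℕ) : ℤ), by ring⟩

/-- the vanishing cycles of the genus 2 family -/
def ww (k : ℕ) (a b : ℤ) (i : ℕ) : Lat 2 :=
  if i % 2 = 0 then
    ![((pq k a b (i / 2)).1 * (uu k (i / 2)).1, (pq k a b (i / 2)).1 * (uu k (i / 2)).2),
      ((pq k a b (i / 2)).2 * (uu k (i / 2)).1, (pq k a b (i / 2)).2 * (uu k (i / 2)).2)]
  else
    ![(-(pq k a b (i / 2)).2 * (uu k (i / 2)).1, -(pq k a b (i / 2)).2 * (uu k (i / 2)).2),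
      ((pq k a b (i / 2)).1 * (uu k (i / 2)).1, (pq k a b (i / 2)).1 * (uu k (i / 2)).2)]

lemma ww_even (k : ℕ) (a b : ℤ) (r : ℕ) : ww k a b (2 * r) =
    ![((pq k a b r).1 * (uu k r).1, (pq k a b r).1 * (uu k r).2),
      ((pq k a b r).2 * (uu k r).1, (pq k a b r).2 * (uu k r).2)] := by
  unfold ww
  rw [if_pos (by omega)]
  have : 2 * r / 2 = r := by omega
  rw [this]

lemma ww_odd (k : ℕ) (a b : ℤ) (r : ℕ) : ww k a b (2 * r + 1) =
    ![(-(pq k a b r).2 * (uu k r).1, -(pq k a b r).2 * (uu k r).2),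
      ((pq k a b r).1 * (uu k r).1, (pq k a b r).1 * (uu k r).2)] := by
  unfold ww
  rw [if_neg (by omega)]
  have : (2 * r + 1) / 2 = r := by omega
  rw [this]

lemma dvd_of_coprime {d p q m : ℤ} (h : IsCoprime p q) (h1 : d ∣ p * m) (h2 : d ∣ q * m) :
    d ∣ m := by
  obtain ⟨α, β, e⟩ := h
  have : m = α * (p * m) + β * (q * m) := by
    calc m = (α * p + β * q) * m := by rw [e, one_mul]
      _ = _ := by ring
  rw [this]
  exact dvd_add (Dvd.dvd.mul_left h1 _) (Dvd.dvd.mul_left h2 _)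

lemma ww_prim (k : ℕ) (a b : ℤ) (hab : IsCoprime a b) (i : ℕ) : Primitive (ww k a b i) := by
  intro d hd
  have h0 := hd 0
  have h1 := hd 1
  have hpq := pq_coprime k a b hab (i / 2)
  have huu := uu_coprime k (i / 2)
  have key : d ∣ (uu k (i / 2)).1 ∧ d ∣ (uu k (i / 2)).2 := by
    unfold ww at h0 h1
    split_ifs at h0 h1
    · simp only [Matrix.cons_val_zero, Matrix.cons_val_one] at h0 h1
      exact ⟨dvd_of_coprime hpq h0.1 h1.1, dvd_of_coprime hpq h0.2 h1.2⟩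
    · simp only [Matrix.cons_val_zero, Matrix.cons_val_one, neg_mul, dvd_neg] at h0 h1
      exact ⟨dvd_of_coprime hpq h1.1 h0.1, dvd_of_coprime hpq h1.2 h0.2⟩
  exact isUnit_of_dvd_one (by
    obtain ⟨α, β, e⟩ := huu
    rw [← e]
    exact dvd_add (Dvd.dvd.mul_left key.1 _) (Dvd.dvd.mul_left key.2 _))

/-! ### Monodromy -/

/-- the `c`-th power of the transvection along `u` in `SL_2` -/
def tv (c : ℤ) (u x : ℤ × ℤ) : ℤ × ℤ :=
  (x.1 + c * (u.1 * x.2 - u.2 * x.1) * u.1, x.2 + c * (u.1 * x.2 - u.2 * x.1) * u.2)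

lemma double_step (k : ℕ) (a b : ℤ) (hab : a ^ 2 + b ^ 2 = k) (r : ℕ) (x : Lat 2) :
    transv (ww k a b (2 * r)) (transv (ww k a b (2 * r + 1)) x) =
      fun l => tv (cc k r) (uu k r) (x l) := by
  have h := pq_sq k a b hab r
  rw [ww_even, ww_odd]
  generalize pq k a b r = P at h ⊢
  generalize uu k r = U at h ⊢
  obtain ⟨p, q⟩ := P
  obtain ⟨u, u'⟩ := U
  simp only at h ⊢
  funext l
  fin_cases l <;>
  · ext <;>
    · simp only [transv, om, tv, Fin.sum_univ_two, ← h, Pi.add_apply, Pi.smul_apply,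
        Matrix.cons_val_zero, Matrix.cons_val_one, Prod.fst_add, Prod.snd_add, Prod.smul_fst,
        Prod.smul_snd, smul_eq_mul, Fin.zero_eta, Fin.mk_one, Fin.isValue]
      ring

/-- monodromy of the first `n` vectors -/
def Mon {g : ℕ} (w : ℕ → Lat g) (n : ℕ) (x : Lat g) : Lat g :=
  (List.ofFn fun i : Fin n => w i).foldr transv x

lemma Mon_two (k : ℕ) (a b : ℤ) (hab : a ^ 2 + b ^ 2 = k) (r : ℕ) (x : Lat 2) :
    Mon (ww k a b) (2 * (r + 1)) x =
      Mon (ww k a b) (2 * r) (fun l => tv (cc k r) (uu k r) (x l)) := by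
  have h1 := Mon_succ (ww k a b) (2 * r + 1) x
  have h2 := Mon_succ (ww k a b) (2 * r) (transv (ww k a b (2 * r + 1)) x)
  show (List.ofFn fun i : Fin (2 * r + 1 + 1) => ww k a b i).foldr transv x = _
  rw [h1, h2, double_step k a b hab r x]
  rfl

lemma Mon_closed (k : ℕ) (a b : ℤ) (hab : a ^ 2 + b ^ 2 = k) (m : ℕ) (h1 : 1 ≤ m)
    (h2 : m ≤ k) (x : Lat 2) :
    Mon (ww k a b) (2 * (2 * m)) x = fun l =>
      tv (-((m : ℤ) - 1)) (2, 5) (tv 5 (1, 2) (tv ((k : ℤ) - m + 1) (1, 0) (x l))) := by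
  induction m, h1 using Nat.le_induction generalizing x with
  | base =>
    have e1 : uu k 1 = (1 - 2 * ((k : ℤ) - (0 : ℕ)), 2) := uu_odd k 0 (by omega)
    have c1 : cc k 1 = 5 := cc_mid k 1 (by omega) (by omega)
    show Mon (ww k a b) (2 * (1 + 1)) x = _
    rw [Mon_two k a b hab 1, e1, c1]
    show Mon (ww k a b) (2 * (0 + 1)) _ = _
    rw [Mon_two k a b hab 0, uu_zero, cc_zero]
    show (fun l => tv (k : ℤ) (1, 0)
      (tv ((5 : ℕ) : ℤ) (1 - 2 * ((k : ℤ) - ((0 : ℕ) : ℤ)), 2) (x l))) = _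
    funext l
    ext <;>
    · simp only [tv]
      push_cast
      ring
  | succ m hm ih =>
    have ue := uu_even k m hm
    have uo := uu_odd k m (by omega)
    have ce : cc k (2 * m) = 5 := cc_mid k _ (by omega) (by omega)
    have co : cc k (2 * m + 1) = 5 := cc_mid k _ (by omega) (by omega)
    have e : 2 * (2 * (m + 1)) = 2 * ((2 * m + 1) + 1) := by ring
    rw [e, Mon_two k a b hab (2 * m + 1), uo, co, Mon_two k a b hab (2 * m), ue, ce,
      ih (by omega)]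
    funext l
    ext <;>
    · simp only [tv]
      push_cast
      ring

lemma Mon_total (k : ℕ) (a b : ℤ) (hab : a ^ 2 + b ^ 2 = k) (hk : 1 ≤ k) (x : Lat 2) :
    Mon (ww k a b) (4 * k + 4) x = x := by
  have ue := uu_even k k hk
  have ul := uu_last k
  have ce : cc k (2 * k) = 5 := cc_mid k _ (by omega) (by omega)
  have cl := cc_last k
  have e : 4 * k + 4 = 2 * ((2 * k + 1) + 1) := by ring
  rw [e, Mon_two k a b hab (2 * k + 1), ul, cl, Mon_two k a b hab (2 * k), ue, ce,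
    Mon_closed k a b hab k hk le_rfl]
  funext l
  ext <;>
  · simp only [tv]
    push_cast
    ring

/-! ### The form -/

/-- first rotated coordinate -/
noncomputable def X0 (k : ℕ) (a b : ℤ) (x : ℕ → ℝ) (r : ℕ) : ℝ :=
  ((pq k a b r).1 : ℝ) * x (2 * r) - ((pq k a b r).2 : ℝ) * x (2 * r + 1)

/-- second rotated coordinate -/
noncomputable def X1 (k : ℕ) (a b : ℤ) (x : ℕ → ℝ) (r : ℕ) : ℝ :=
  ((pq k a b r).2 : ℝ) * x (2 * r) + ((pq k a b r).1 : ℝ) * x (2 * r + 1)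

lemma path0 (k : ℕ) (a b : ℤ) (x : ℕ → ℝ) (r : ℕ) :
    (∑ i ∈ range (2 * r), x i * ((ww k a b i 0).1 : ℝ) = (SS k (X0 k a b x) r).1 ∧
     ∑ i ∈ range (2 * r), x i * ((ww k a b i 0).2 : ℝ) = (SS k (X0 k a b x) r).2) ∧
    (∑ i ∈ range (2 * r), x i * ((ww k a b i 1).1 : ℝ) = (SS k (X1 k a b x) r).1 ∧
     ∑ i ∈ range (2 * r), x i * ((ww k a b i 1).2 : ℝ) = (SS k (X1 k a b x) r).2) := by
  induction r with
  | zero => simp [SS]
  | succ r ih =>
    obtain ⟨⟨i1, i2⟩, i3, i4⟩ := ih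
    have e : 2 * (r + 1) = 2 * r + 1 + 1 := by ring
    rw [e]
    simp only [sum_range_succ, i1, i2, i3, i4, SS, ww_even, ww_odd, Matrix.cons_val_zero,
      Matrix.cons_val_one, X0, X1]
    push_cast
    refine ⟨⟨?_, ?_⟩, ?_, ?_⟩ <;> ring

lemma sum_om (k : ℕ) (a b : ℤ) (x : ℕ → ℝ) (r : ℕ) (v : Lat 2) :
    ∑ i ∈ range (2 * r), x i * (om (ww k a b i) v : ℝ) =
      (SS k (X0 k a b x) r).1 * ((v 0).2 : ℝ) - (SS k (X0 k a b x) r).2 * ((v 0).1 : ℝ) +
      ((SS k (X1 k a b x) r).1 * ((v 1).2 : ℝ) - (SS k (X1 k a b x) r).2 * ((v 1).1 : ℝ)) := by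
  obtain ⟨⟨i1, i2⟩, i3, i4⟩ := path0 k a b x r
  rw [← i1, ← i2, ← i3, ← i4]
  simp only [sum_mul, ← sum_sub_distrib, ← sum_add_distrib]
  apply sum_congr rfl
  intro i _
  simp only [om, Fin.sum_univ_two]
  push_cast
  ring

lemma Qs_eq (k : ℕ) (hk : 1 ≤ k) (a b : ℤ) (hab : a ^ 2 + b ^ 2 = k) (x : ℕ → ℝ) (r : ℕ) :
    Qs (ww k a b) x (2 * r) = QQ k (X0 k a b x) r + QQ k (X1 k a b x) r := by
  induction r with
  | zero => simp [Qs, QQ]
  | succ r ih =>
    have e : 2 * (r + 1) = 2 * r + 1 + 1 := by ring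
    have hc : ((cc k r : ℕ) : ℝ) ≠ 0 := by
      have : cc k r ≠ 0 := by
        unfold cc
        split_ifs <;> omega
      exact_mod_cast this
    have hsq : (((pq k a b r).1 : ℤ) : ℝ) ^ 2 + (((pq k a b r).2 : ℤ) : ℝ) ^ 2 = (cc k r : ℕ) := by
      exact_mod_cast pq_sq k a b hab r
    have hom : (om (ww k a b (2 * r)) (ww k a b (2 * r + 1)) : ℝ) = 0 := by
      rw [ww_even, ww_odd]
      simp only [om, Fin.sum_univ_two, Matrix.cons_val_zero, Matrix.cons_val_one]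
      push_cast
      ring
    rw [e, Qs, Qs, ih, sum_range_succ, sum_om, sum_om, hom]
    simp only [QQ, ww_even, ww_odd, Matrix.cons_val_zero, Matrix.cons_val_one]
    have hX : X0 k a b x r ^ 2 / (cc k r : ℕ) + X1 k a b x r ^ 2 / (cc k r : ℕ) =
        x (2 * r) ^ 2 + x (2 * r + 1) ^ 2 := by
      rw [← add_div, div_eq_iff hc, ← hsq]
      simp only [X0, X1]
      ring
    have hX' : X0 k a b x r ^ 2 / ((cc k r : ℕ) : ℝ) =
        x (2 * r) ^ 2 + x (2 * r + 1) ^ 2 - X1 k a b x r ^ 2 / ((cc k r : ℕ) : ℝ) := by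
      linarith
    rw [hX']
    simp only [X0, X1]
    push_cast
    ring

/-- The genus 2 homological Lefschetz fibration. -/
def fib2 (k : ℕ) (a b : ℤ) (hab : a ^ 2 + b ^ 2 = k) (hco : IsCoprime a b) (hk : 1 ≤ k) :
    Fibration 2 where
  n := 4 * k + 4
  v i := ww k a b i
  prim i := ww_prim k a b hco i
  monodromy x := Mon_total k a b hab hk x

/-- extension by zero -/
def ext0 {n : ℕ} (x : Fin n → ℝ) (i : ℕ) : ℝ := if h : i < n then x ⟨i, h⟩ else 0

lemma ext0_coe {n : ℕ} (x : Fin n → ℝ) (i : Fin n) : ext0 x i = x i := by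
  unfold ext0
  rw [dif_pos i.2]

section

variable (k : ℕ) (a b : ℤ) (hab : a ^ 2 + b ^ 2 = k) (hco : IsCoprime a b) (hk : 1 ≤ k)

lemma fib2_form (x : Fin (4 * k + 4) → ℝ) : (fib2 k a b hab hco hk).form x =
    QQ k (X0 k a b (ext0 x)) (2 * k + 2) + QQ k (X1 k a b (ext0 x)) (2 * k + 2) := by
  rw [← Qs_eq k hk a b hab]
  have e : 2 * (2 * k + 2) = 4 * k + 4 := by ring
  rw [e, ← form_eq_Qs]
  unfold Fibration.form
  simp only [ext0_coe]
  rfl

lemma fib2_cycle (x : Fin (4 * k + 4) → ℝ) (hx : (fib2 k a b hab hco hk).IsCycle x) :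
    SS k (X0 k a b (ext0 x)) (2 * k + 2) = (0, 0) ∧
    SS k (X1 k a b (ext0 x)) (2 * k + 2) = (0, 0) := by
  obtain ⟨⟨i1, i2⟩, i3, i4⟩ := path0 k a b (ext0 x) (2 * k + 2)
  have e : 2 * (2 * k + 2) = 4 * k + 4 := by ring
  rw [e] at i1 i2 i3 i4
  rw [Finset.sum_range] at i1 i2 i3 i4
  simp only [ext0_coe] at i1 i2 i3 i4
  have h0 := hx 0
  have h1 := hx 1
  constructor
  · exact Prod.ext (i1.symm.trans h0.1) (i2.symm.trans h0.2)
  · exact Prod.ext (i3.symm.trans h1.1) (i4.symm.trans h1.2)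

lemma fib2_nonneg (x : Fin (4 * k + 4) → ℝ) (hx : (fib2 k a b hab hco hk).IsCycle x) :
    0 ≤ (fib2 k a b hab hco hk).form x := by
  obtain ⟨h0, h1⟩ := fib2_cycle k a b hab hco hk x hx
  rw [fib2_form]
  exact add_nonneg (QQ_nonneg k hk _ h0) (QQ_nonneg k hk _ h1)

include hab hk in
lemma X_zero {x : ℕ → ℝ} {r : ℕ} (h0 : X0 k a b x r = 0) (h1 : X1 k a b x r = 0) :
    x (2 * r) = 0 ∧ x (2 * r + 1) = 0 := by
  have hc : ((cc k r : ℕ) : ℝ) ≠ 0 := by
    have : cc k r ≠ 0 := by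
      unfold cc
      split_ifs <;> omega
    exact_mod_cast this
  have hsq : (((pq k a b r).1 : ℤ) : ℝ) ^ 2 + (((pq k a b r).2 : ℤ) : ℝ) ^ 2 = (cc k r : ℕ) := by
    exact_mod_cast pq_sq k a b hab r
  unfold X0 at h0
  unfold X1 at h1
  generalize (((pq k a b r).1 : ℤ) : ℝ) = p at *
  generalize (((pq k a b r).2 : ℤ) : ℝ) = q at *
  rw [← hsq] at hc
  constructor
  · have : (p ^ 2 + q ^ 2) * x (2 * r) = 0 := by linear_combination p * h0 + q * h1
    exact (mul_eq_zero.mp this).resolve_left hc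
  · have : (p ^ 2 + q ^ 2) * x (2 * r + 1) = 0 := by linear_combination -q * h0 + p * h1
    exact (mul_eq_zero.mp this).resolve_left hc

lemma fib2_pos (x : Fin (4 * k + 4) → ℝ) (hx : (fib2 k a b hab hco hk).IsCycle x)
    (h4 : ∀ i, i < 4 → ext0 x i = 0) (hne : x ≠ 0) :
    0 < (fib2 k a b hab hco hk).form x := by
  rcases (fib2_nonneg k a b hab hco hk x hx).lt_or_eq with h | h
  · exact h
  exfalso
  obtain ⟨h0, h1⟩ := fib2_cycle k a b hab hco hk x hx
  have n0 := QQ_nonneg k hk _ h0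
  have n1 := QQ_nonneg k hk _ h1
  rw [fib2_form] at h
  have z0 : QQ k (X0 k a b (ext0 x)) (2 * k + 2) = 0 := by linarith
  have z1 : QQ k (X1 k a b (ext0 x)) (2 * k + 2) = 0 := by linarith
  have hr0 : ∀ r, r < 2 → X0 k a b (ext0 x) r = 0 := by
    intro r hr
    simp only [X0]
    rw [h4 _ (by omega), h4 _ (by omega)]
    ring
  have hr1 : ∀ r, r < 2 → X1 k a b (ext0 x) r = 0 := by
    intro r hr
    simp only [X1]
    rw [h4 _ (by omega), h4 _ (by omega)]
    ring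
  have a0 := QQ_zero k hk _ h0 (hr0 0 (by omega)) (hr0 1 (by omega)) z0
  have a1 := QQ_zero k hk _ h1 (hr1 0 (by omega)) (hr1 1 (by omega)) z1
  apply hne
  funext i
  rw [Pi.zero_apply, ← ext0_coe x i]
  have hi := i.2
  have hz := X_zero k a b hab hk (a0 ((i : ℕ) / 2) (by omega)) (a1 ((i : ℕ) / 2) (by omega))
  rcases Nat.even_or_odd' (i : ℕ) with ⟨c, hc | hc⟩
  · have : (i : ℕ) / 2 = c := by omega
    rw [this] at hz
    rw [hc]
    exact hz.1
  · have : (i : ℕ) / 2 = c := by omega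
    rw [this] at hz
    rw [hc]
    exact hz.2

end

end Pool.Agent.Helper21.HLF
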