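import Mathlib
import Pool.Agent.Helper21.HLFGenus2

/-!
# Indices of the genus 2 family and stabilisation of the genus
-/

namespace Pool.Agent.Helper21.HLF

open Finset

lemma exists_map {n c : ℕ} {E : Type*} [AddCommGroup E] [Module ℝ E] [FiniteDimensional ℝ E]
    (L : (Fin n → ℝ) →ₗ[ℝ] E) (hE : Module.finrank ℝ E ≤ c) :
    ∃ f : (Fin (n - c) → ℝ) →ₗ[ℝ] (Fin n → ℝ), Function.Injective f ∧ ∀ y, L (f y) = 0 := by
  have h1 := L.finrank_range_add_finrank_ker
  have h2 : Module.finrank ℝ (LinearMap.range L) ≤ Module.finrank ℝ E :=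
    Submodule.finrank_le _
  have h3 : Module.finrank ℝ (Fin n → ℝ) = n := by simp
  have h4 : n - c ≤ Module.finrank ℝ (LinearMap.ker L) := by omega
  obtain ⟨v, hv⟩ := exists_linearIndependent_of_le_finrank h4
  refine ⟨(LinearMap.ker L).subtype ∘ₗ Fintype.linearCombination ℝ v, ?_, ?_⟩
  · rw [LinearMap.coe_comp]
    exact Function.Injective.comp (Submodule.injective_subtype _)
      (linearIndependent_iff_injective_fintypeLinearCombination.mp hv)
  · intro y
    exact (Fintype.linearCombination ℝ v y).2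

namespace Fibration

variable {g : ℕ} (F : Fibration g)

/-- the set defining `posIndex` -/
def posSet : Set ℕ := {d : ℕ | ∃ f : (Fin d → ℝ) →ₗ[ℝ] (Fin F.n → ℝ),
    (∀ y, F.IsCycle (f y)) ∧ ∀ y, y ≠ 0 → 0 < F.form (f y)}

/-- the set defining `negIndex` -/
def negSet : Set ℕ := {d : ℕ | ∃ f : (Fin d → ℝ) →ₗ[ℝ] (Fin F.n → ℝ),
    (∀ y, F.IsCycle (f y)) ∧ ∀ y, y ≠ 0 → F.form (f y) < 0}

lemma form_zero : F.form 0 = 0 := by
  unfold form
  simp

lemma posSet_bdd : BddAbove F.posSet := by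
  refine ⟨F.n, ?_⟩
  rintro d ⟨f, _, hf⟩
  have hinj : Function.Injective f := by
    rw [← LinearMap.ker_eq_bot, LinearMap.ker_eq_bot']
    intro y hy
    by_contra hne
    have := hf y hne
    rw [hy, F.form_zero] at this
    exact lt_irrefl _ this
  have := LinearMap.finrank_le_finrank_of_injective hinj
  simpa using this

lemma negSet_bdd : BddAbove F.negSet := by
  refine ⟨F.n, ?_⟩
  rintro d ⟨f, _, hf⟩
  have hinj : Function.Injective f := by
    rw [← LinearMap.ker_eq_bot, LinearMap.ker_eq_bot']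
    intro y hy
    by_contra hne
    have := hf y hne
    rw [hy, F.form_zero] at this
    exact lt_irrefl _ this
  have := LinearMap.finrank_le_finrank_of_injective hinj
  simpa using this

lemma isCycle_zero : F.IsCycle 0 := by
  intro k
  simp

lemma posSet_zero : 0 ∈ F.posSet := by
  refine ⟨0, fun y => ?_, fun y hy => absurd (Subsingleton.elim y 0) hy⟩
  exact F.isCycle_zero

lemma negSet_zero : 0 ∈ F.negSet := by
  refine ⟨0, fun y => ?_, fun y hy => absurd (Subsingleton.elim y 0) hy⟩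
  exact F.isCycle_zero

/-- the map whose kernel are the cycles -/
noncomputable def cyc : (Fin F.n → ℝ) →ₗ[ℝ] (Fin g → ℝ × ℝ) where
  toFun x := fun k => (∑ i, x i * ((F.v i k).1 : ℝ), ∑ i, x i * ((F.v i k).2 : ℝ))
  map_add' x y := by
    funext k
    ext <;> simp [add_mul, sum_add_distrib]
  map_smul' c x := by
    funext k
    ext <;> simp [mul_assoc, mul_sum]

lemma isCycle_of_cyc {x : Fin F.n → ℝ} (h : F.cyc x = 0) : F.IsCycle x := by
  intro k
  have := congrFun h k
  exact ⟨congrArg Prod.fst this, congrArg Prod.snd this⟩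

end Fibration

section

variable (k : ℕ) (a b : ℤ) (hab : a ^ 2 + b ^ 2 = k) (hco : IsCoprime a b) (hk : 1 ≤ k)

lemma fib2_negIndex : (fib2 k a b hab hco hk).negIndex ≤ 0 := by
  apply csSup_le ⟨0, (fib2 k a b hab hco hk).negSet_zero⟩
  rintro d ⟨f, hf1, hf2⟩
  by_contra hd
  push Not at hd
  have hne : (Pi.single ⟨0, hd⟩ 1 : Fin d → ℝ) ≠ 0 := by
    intro h
    have := congrFun h ⟨0, hd⟩
    simp at this
  have h1 := hf2 _ hne
  have h2 := fib2_nonneg k a b hab hco hk _ (hf1 (Pi.single ⟨0, hd⟩ 1))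
  linarith

lemma fib2_posIndex : 4 * k - 4 ≤ (fib2 k a b hab hco hk).posIndex := by
  apply le_csSup (fib2 k a b hab hco hk).posSet_bdd
  let r4 : (Fin (4 * k + 4) → ℝ) →ₗ[ℝ] (Fin 4 → ℝ) :=
    LinearMap.funLeft ℝ ℝ (Fin.castLE (by omega))
  let L : (Fin (4 * k + 4) → ℝ) →ₗ[ℝ] (Fin 4 → ℝ) × (Fin 2 → ℝ × ℝ) :=
    r4.prod (fib2 k a b hab hco hk).cyc
  have hfr : Module.finrank ℝ ((Fin 4 → ℝ) × (Fin 2 → ℝ × ℝ)) ≤ 8 := by
    simp [Module.finrank_pi_fintype]
  obtain ⟨f, hf1, hf2⟩ := exists_map L hfr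
  have e : 4 * k + 4 - 8 = 4 * k - 4 := by omega
  rw [← e]
  refine ⟨f, fun y => ?_, fun y hy => ?_⟩
  · apply Fibration.isCycle_of_cyc
    exact congrArg Prod.snd (hf2 y)
  · apply fib2_pos
    · apply Fibration.isCycle_of_cyc
      exact congrArg Prod.snd (hf2 y)
    · intro i hi
      have h1 := congrFun (congrArg Prod.fst (hf2 y)) ⟨i, hi⟩
      have h2 : ext0 (f y) i = f y (Fin.castLE (by omega) (⟨i, hi⟩ : Fin 4)) := by
        unfold ext0
        rw [dif_pos (by omega)]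
        rfl
      exact h2.trans h1
    · intro h0
      apply hy
      apply hf1
      exact h0.trans (map_zero f).symm

lemma fib2_orth : (fib2 k a b hab hco hk).orth = ⊥ := by
  rw [Submodule.eq_bot_iff]
  intro x hx
  have hk' : (k : ℤ) ≠ 0 := by exact_mod_cast (by omega : k ≠ 0)
  have g0 : om (ww k a b (2 * 0)) x = 0 := hx ⟨0, show 0 < 4 * k + 4 by omega⟩
  have g1 : om (ww k a b (2 * 0 + 1)) x = 0 := hx ⟨1, show 1 < 4 * k + 4 by omega⟩
  have g2 : om (ww k a b (2 * (2 * k + 1))) x = 0 :=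
    hx ⟨2 * (2 * k + 1), show 2 * (2 * k + 1) < 4 * k + 4 by omega⟩
  have g3 : om (ww k a b (2 * (2 * k + 1) + 1)) x = 0 :=
    hx ⟨2 * (2 * k + 1) + 1, show 2 * (2 * k + 1) + 1 < 4 * k + 4 by omega⟩
  rw [ww_even, uu_zero] at g0
  rw [ww_odd, uu_zero] at g1
  rw [ww_even, uu_last] at g2
  rw [ww_odd, uu_last] at g3
  have p0 : pq k a b 0 = (a, b) := by simp [pq]
  have p1 : pq k a b (2 * k + 1) = (a, b) := by simp [pq]
  rw [p0] at g0 g1
  rw [p1] at g2 g3
  simp only [om, Fin.sum_univ_two, Matrix.cons_val_zero, Matrix.cons_val_one] at g0 g1 g2 g3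
  have a1 : (k : ℤ) * (x 0).2 = 0 := by
    rw [← hab]
    linear_combination a * g0 - b * g1
  have a2 : (k : ℤ) * (x 1).2 = 0 := by
    rw [← hab]
    linear_combination b * g0 + a * g1
  have b1 : (x 0).2 = 0 := (mul_eq_zero.mp a1).resolve_left hk'
  have b2 : (x 1).2 = 0 := (mul_eq_zero.mp a2).resolve_left hk'
  rw [b1, b2] at g2 g3
  have a3 : (k : ℤ) * (5 * (x 0).1) = 0 := by
    rw [← hab]
    linear_combination -a * g2 + b * g3
  have a4 : (k : ℤ) * (5 * (x 1).1) = 0 := by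
    rw [← hab]
    linear_combination -b * g2 - a * g3
  have b3 : 5 * (x 0).1 = 0 := (mul_eq_zero.mp a3).resolve_left hk'
  have b4 : 5 * (x 1).1 = 0 := (mul_eq_zero.mp a4).resolve_left hk'
  funext l
  fin_cases l
  · ext
    · show (x 0).1 = 0
      omega
    · exact b1
  · ext
    · show (x 1).1 = 0
      omega
    · exact b2

end

end Pool.Agent.Helper21.HLF
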