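import Mathlib
import Pool.Agent.Helper21.HLFIndex

/-!
# Raising the genus of a homological Lefschetz fibration
-/

namespace Pool.Agent.Helper21.HLF

open Finset

variable {g : ℕ}

/-- add one handle -/
def snc (x : Lat g) (q : ℤ × ℤ) : Lat (g + 1) := Fin.snoc (α := fun _ => ℤ × ℤ) x q

lemma snc_castSucc (x : Lat g) (q : ℤ × ℤ) (k : Fin g) : snc x q k.castSucc = x k := by
  simp [snc]

lemma snc_last (x : Lat g) (q : ℤ × ℤ) : snc x q (Fin.last g) = q := by
  simp [snc]

lemma exists_snc (x : Lat (g + 1)) : ∃ x' q, x = snc x' q := by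
  refine ⟨fun k => x k.castSucc, x (Fin.last g), ?_⟩
  funext k
  refine Fin.lastCases ?_ (fun k => ?_) k
  · rw [snc_last]
  · rw [snc_castSucc]

lemma om_snc (x y : Lat g) (p q : ℤ × ℤ) :
    om (snc x p) (snc y q) = om x y + (p.1 * q.2 - p.2 * q.1) := by
  unfold om
  rw [Fin.sum_univ_castSucc]
  simp only [snc_castSucc, snc_last]

lemma transv_pad (v x : Lat g) (q : ℤ × ℤ) :
    transv (snc v (0, 0)) (snc x q) = snc (transv v x) q := by
  unfold transv
  rw [om_snc]
  funext k
  refine Fin.lastCases ?_ (fun k => ?_) k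
  · ext <;> simp [snc_last]
  · simp [snc_castSucc]

lemma transv_em (x : Lat g) (p q : ℤ × ℤ) :
    transv (snc 0 p) (snc x q) = snc x (q + (p.1 * q.2 - p.2 * q.1) • p) := by
  unfold transv
  rw [om_snc]
  have h0 : om (0 : Lat g) x = 0 := by simp [om]
  rw [h0, zero_add]
  funext k
  refine Fin.lastCases ?_ (fun k => ?_) k
  · simp [snc_last]
  · simp [snc_castSucc]

/-- the action on a pair -/
def tw (p q : ℤ × ℤ) : ℤ × ℤ := q + (p.1 * q.2 - p.2 * q.1) • p

/-- the pair attached to an index -/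
def alt (j : ℕ) : ℤ × ℤ := if j % 2 = 0 then (1, 0) else (0, 1)

lemma foldr_pad (l : List (Lat g)) (x : Lat g) (q : ℤ × ℤ) :
    (l.map fun v => snc v (0, 0)).foldr transv (snc x q) = snc (l.foldr transv x) q := by
  induction l with
  | nil => rfl
  | cons v l ih =>
    simp only [List.map_cons, List.foldr_cons, ih, transv_pad]

lemma foldr_em (l : List (ℤ × ℤ)) (x : Lat g) (q : ℤ × ℤ) :
    (l.map fun p => snc (0 : Lat g) p).foldr transv (snc x q) =
      snc x (l.foldr tw q) := by
  induction l with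
  | nil => rfl
  | cons v l ih =>
    simp only [List.map_cons, List.foldr_cons, ih, transv_em, tw]

lemma foldr_alt (q : ℤ × ℤ) :
    (List.ofFn fun j : Fin 12 => alt j).foldr tw q = q := by
  have : (List.ofFn fun j : Fin 12 => alt j) =
      [(1, 0), (0, 1), (1, 0), (0, 1), (1, 0), (0, 1), (1, 0), (0, 1), (1, 0), (0, 1),
        (1, 0), (0, 1)] := by
    rfl
  rw [this]
  have st : ∀ q : ℤ × ℤ, tw (1, 0) (tw (0, 1) q) = (q.2, q.2 - q.1) := by
    intro q
    unfold tw
    ext
    · simp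
    · simp
      ring
  simp only [List.foldr_cons, List.foldr_nil, st]
  ext <;>
  · simp only
    ring

namespace Fibration

variable (F : Fibration g)

/-- Raising the genus by one with twelve additional vanishing cycles. -/
def stab : Fibration (g + 1) where
  n := F.n + 12
  v := Fin.append (fun i => snc (F.v i) (0, 0)) (fun j : Fin 12 => snc 0 (alt j))
  prim i := by
    refine Fin.addCases (fun i => ?_) (fun j => ?_) i
    · rw [Fin.append_left]
      intro d hd
      apply F.prim i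
      intro k
      have := hd k.castSucc
      rw [snc_castSucc] at this
      exact this
    · rw [Fin.append_right]
      intro d hd
      have := hd (Fin.last g)
      rw [snc_last] at this
      unfold alt at this
      split_ifs at this
      · exact isUnit_of_dvd_one this.1
      · exact isUnit_of_dvd_one this.2
  monodromy x := by
    obtain ⟨x', q, rfl⟩ := exists_snc x
    rw [List.ofFn_fin_append, List.foldr_append]
    have h1 : (List.ofFn fun j : Fin 12 => snc (0 : Lat g) (alt j)) =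
        (List.ofFn fun j : Fin 12 => alt j).map fun p => snc (0 : Lat g) p := by
      rw [List.map_ofFn]
      rfl
    have h2 : (List.ofFn fun i => snc (F.v i) (0, 0)) =
        (List.ofFn F.v).map fun v => snc v (0, 0) := by
      rw [List.map_ofFn]
      rfl
    rw [h1, h2, foldr_em, foldr_alt, foldr_pad, F.monodromy]

lemma stab_v_castAdd (i : Fin F.n) : F.stab.v (Fin.castAdd 12 i) = snc (F.v i) (0, 0) := by
  show Fin.append (fun i => snc (F.v i) (0, 0)) (fun j : Fin 12 => snc 0 (alt j))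
    (Fin.castAdd 12 i) = _
  rw [Fin.append_left]

lemma stab_v_natAdd (j : Fin 12) : F.stab.v (Fin.natAdd F.n j) = snc 0 (alt j) := by
  show Fin.append (fun i => snc (F.v i) (0, 0)) (fun j : Fin 12 => snc 0 (alt j))
    (Fin.natAdd F.n j) = _
  rw [Fin.append_right]

lemma stab_orth (h : F.orth = ⊥) : F.stab.orth = ⊥ := by
  rw [Submodule.eq_bot_iff] at h ⊢
  intro x hx
  obtain ⟨x', q, rfl⟩ := exists_snc x
  have h1 : x' = 0 := by
    apply h
    intro i
    have := hx (Fin.castAdd 12 i)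
    rw [F.stab_v_castAdd, om_snc] at this
    simpa using this
  have h2 := hx (Fin.natAdd F.n 0)
  have h3 := hx (Fin.natAdd F.n 1)
  rw [F.stab_v_natAdd, om_snc] at h2 h3
  have e0 : om (0 : Lat g) x' = 0 := by simp [om]
  have a0 : alt ((0 : Fin 12) : ℕ) = (1, 0) := rfl
  have a1 : alt ((1 : Fin 12) : ℕ) = (0, 1) := rfl
  rw [e0, a0] at h2
  rw [e0, a1] at h3
  simp only at h2 h3
  have q2 : q.2 = 0 := by linarith
  have q1 : q.1 = 0 := by linarith
  funext k
  refine Fin.lastCases ?_ (fun k => ?_) k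
  · rw [snc_last]
    exact Prod.ext q1 q2
  · rw [snc_castSucc, h1]
    rfl

/-- restricting a vector of `stab` -/
def res (x : Fin (F.n + 12) → ℝ) : Fin F.n → ℝ := fun i => x (Fin.castAdd 12 i)

lemma stab_form (x : Fin (F.n + 12) → ℝ) (hx : ∀ j : Fin 12, x (Fin.natAdd F.n j) = 0) :
    F.stab.form x = F.form (F.res x) := by
  unfold form
  show (∑ i : Fin (F.n + 12), ∑ j : Fin (F.n + 12), if i < j then
      x i * x j * (om (F.stab.v i) (F.stab.v j) : ℝ) else 0) - ∑ i : Fin (F.n + 12), x i ^ 2 = _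
  have hs : ∑ i : Fin (F.n + 12), x i ^ 2 = ∑ i, (F.res x) i ^ 2 := by
    rw [Fin.sum_univ_add]
    simp [hx, res]
  rw [hs]
  congr 1
  rw [Fin.sum_univ_add]
  have h1 : ∀ j : Fin 12, (∑ j' : Fin (F.n + 12), if Fin.natAdd F.n j < j' then
      x (Fin.natAdd F.n j) * x j' * (om (F.stab.v (Fin.natAdd F.n j)) (F.stab.v j') : ℝ)
      else 0) = 0 := by
    intro j
    apply Finset.sum_eq_zero
    intro j' _
    rw [hx j]
    simp
  rw [Finset.sum_congr rfl fun j _ => h1 j]
  simp only [sum_const_zero, add_zero]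
  apply Finset.sum_congr rfl
  intro i _
  rw [Fin.sum_univ_add]
  have h2 : ∀ j : Fin 12, (if Fin.castAdd 12 i < Fin.natAdd F.n j then
      x (Fin.castAdd 12 i) * x (Fin.natAdd F.n j) *
        (om (F.stab.v (Fin.castAdd 12 i)) (F.stab.v (Fin.natAdd F.n j)) : ℝ) else 0) = 0 := by
    intro j
    rw [hx j]
    simp
  rw [Finset.sum_congr rfl fun j _ => h2 j]
  simp only [sum_const_zero, add_zero]
  apply Finset.sum_congr rfl
  intro j _
  rw [stab_v_castAdd, stab_v_castAdd, om_snc]
  have : (Fin.castAdd 12 i < Fin.castAdd 12 j) ↔ i < j := Iff.rfl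
  simp only [this]
  simp [res]

lemma stab_cycle (x : Fin (F.n + 12) → ℝ) (hx : ∀ j : Fin 12, x (Fin.natAdd F.n j) = 0) :
    F.stab.IsCycle x ↔ F.IsCycle (F.res x) := by
  have key : ∀ (φ : ℤ × ℤ → ℝ), φ (0, 0) = 0 → ∀ k : Fin (g + 1),
      ∑ i : Fin (F.n + 12), x i * φ (F.stab.v i k) =
        ∑ i : Fin F.n, F.res x i * φ (snc (F.v i) (0, 0) k) := by
    intro φ _ k
    rw [Fin.sum_univ_add]
    simp [hx, res, stab_v_castAdd]
  constructor
  · intro h k
    obtain ⟨h1, h2⟩ := h k.castSucc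
    have k1 := key (fun q => (q.1 : ℝ)) (by simp) k.castSucc
    have k2 := key (fun q => (q.2 : ℝ)) (by simp) k.castSucc
    simp only [snc_castSucc] at k1 k2
    exact ⟨k1.symm.trans h1, k2.symm.trans h2⟩
  · intro h k
    have k1 := key (fun q => (q.1 : ℝ)) (by simp) k
    have k2 := key (fun q => (q.2 : ℝ)) (by simp) k
    refine ⟨Eq.trans k1 ?_, Eq.trans k2 ?_⟩
    · refine Fin.lastCases ?_ (fun k => ?_) k
      · simp [snc_last]
      · simp only [snc_castSucc]
        exact (h k).1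
    · refine Fin.lastCases ?_ (fun k => ?_) k
      · simp [snc_last]
      · simp only [snc_castSucc]
        exact (h k).2

/-- extension by zero -/
def extL : (Fin F.n → ℝ) →ₗ[ℝ] (Fin (F.n + 12) → ℝ) where
  toFun x := Fin.append x 0
  map_add' x y := by
    funext i
    refine Fin.addCases (fun i => ?_) (fun j => ?_) i
    · simp
    · simp
  map_smul' c x := by
    funext i
    refine Fin.addCases (fun i => ?_) (fun j => ?_) i
    · simp
    · simp

lemma posIndex_stab : F.posIndex ≤ F.stab.posIndex := by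
  apply csSup_le ⟨0, F.posSet_zero⟩
  rintro d ⟨f, hf1, hf2⟩
  apply le_csSup F.stab.posSet_bdd
  have hz : ∀ y, ∀ j : Fin 12, (F.extL (f y)) (Fin.natAdd F.n j) = 0 := by
    intro y j
    show Fin.append (f y) (0 : Fin 12 → ℝ) (Fin.natAdd F.n j) = 0
    rw [Fin.append_right]
    rfl
  have hr : ∀ y, F.res (F.extL (f y)) = f y := by
    intro y
    funext i
    show Fin.append (f y) (0 : Fin 12 → ℝ) (Fin.castAdd 12 i) = f y i
    rw [Fin.append_left]
  refine ⟨F.extL ∘ₗ f, fun y => ?_, fun y hy => ?_⟩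
  · show F.stab.IsCycle (F.extL (f y))
    rw [F.stab_cycle _ (hz y), hr]
    exact hf1 y
  · show 0 < F.stab.form (F.extL (f y))
    rw [F.stab_form _ (hz y), hr]
    exact hf2 y hy

lemma negIndex_stab : F.stab.negIndex ≤ F.negIndex + 12 := by
  apply csSup_le ⟨0, F.stab.negSet_zero⟩
  rintro d ⟨f, hf1, hf2⟩
  have : d - 12 ≤ F.negIndex := by
    apply le_csSup F.negSet_bdd
    let f' : (Fin d → ℝ) →ₗ[ℝ] (Fin (F.n + 12) → ℝ) := f
    let L : (Fin d → ℝ) →ₗ[ℝ] (Fin 12 → ℝ) :=
      (LinearMap.funLeft ℝ ℝ (Fin.natAdd F.n)) ∘ₗ f'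
    obtain ⟨h, hh1, hh2⟩ := exists_map L (c := 12) (by simp)
    have hz : ∀ y, ∀ j : Fin 12, (f' (h y)) (Fin.natAdd F.n j) = 0 := by
      intro y j
      exact congrFun (hh2 y) j
    refine ⟨(LinearMap.funLeft ℝ ℝ (Fin.castAdd 12)) ∘ₗ f' ∘ₗ h, fun y => ?_, fun y hy => ?_⟩
    · show F.IsCycle (F.res (f' (h y)))
      rw [← F.stab_cycle _ (hz y)]
      exact hf1 (h y)
    · show F.form (F.res (f' (h y))) < 0
      rw [← F.stab_form _ (hz y)]
      apply hf2
      intro h0
      apply hy
      apply hh1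
      exact h0.trans (map_zero h).symm
  omega

end Fibration

theorem exists_family (k : ℕ) (a b : ℤ) (hab : a ^ 2 + b ^ 2 = k) (hco : IsCoprime a b)
    (hk : 1 ≤ k) (g : ℕ) (hg : 2 ≤ g) :
    ∃ F : Fibration g, F.orth = ⊥ ∧ F.n = 4 * k + 4 + 12 * (g - 2) ∧
      4 * k - 4 ≤ F.posIndex ∧ F.negIndex ≤ 12 * (g - 2) := by
  induction g, hg using Nat.le_induction with
  | base =>
    exact ⟨fib2 k a b hab hco hk, fib2_orth k a b hab hco hk, rfl,
      fib2_posIndex k a b hab hco hk, fib2_negIndex k a b hab hco hk⟩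
  | succ g hg ih =>
    obtain ⟨F, h1, h2, h3, h4⟩ := ih
    refine ⟨F.stab, F.stab_orth h1, ?_, h3.trans F.posIndex_stab, ?_⟩
    · show F.n + 12 = _
      omega
    · have := F.negIndex_stab
      omega

end Pool.Agent.Helper21.HLF
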