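import Mathlib
import Pool.Agent.Helper21.HLFStab

/-!
# The Bogomolov-Miyaoka-Yau inequality fails for homological Lefschetz fibrations
-/

namespace Pool.Agent.Helper21.HLFTheorem

open Pool.Agent.Helper21.HLF

/-- For every genus `g ≥ 2`, every `ε > 0` and every `N` there is a homological Lefschetz
fibration of genus `g` over the 2-sphere with `b_1 = 0`, `b^+ ≥ N`, `b^- ≤ 12 (g - 2) + 1`,
`c_2 > 0` and `c_1^2 > (5 - ε) c_2`. -/
theorem result (g : ℕ) (hg : 2 ≤ g) (ε : ℝ) (hε : 0 < ε) (N : ℕ) :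
    ∃ F : Fibration g, F.b1 = 0 ∧ N ≤ F.bPlus ∧ F.bMinus ≤ 12 * (g - 2) + 1 ∧ 0 < F.c2 ∧
      (5 - ε) * (F.c2 : ℝ) < (F.c1sq : ℝ) := by
  obtain ⟨t, ht⟩ := exists_nat_gt (max (N : ℝ) (15 * g / ε))
  have ht1 : (N : ℝ) < t := lt_of_le_of_lt (le_max_left _ _) ht
  have ht2 : 15 * (g : ℝ) / ε < t := lt_of_le_of_lt (le_max_right _ _) ht
  have htN : N < t := by exact_mod_cast ht1
  have hkt : t ≤ t ^ 2 + 1 := by nlinarith
  obtain ⟨F, h1, h2, h3, h4⟩ := exists_family (t ^ 2 + 1) (t : ℤ) 1 (by push_cast; ring)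
    isCoprime_one_right (by omega) g hg
  refine ⟨F, ?_, ?_, ?_, ?_, ?_⟩
  · unfold Fibration.b1
    rw [h1]
    simp
  · unfold Fibration.bPlus
    omega
  · unfold Fibration.bMinus
    omega
  · unfold Fibration.c2
    omega
  · have hc2 : F.c2 = 4 * ((t : ℤ) ^ 2 + 1) + 8 * g - 16 := by
      unfold Fibration.c2
      rw [h2]
      push_cast [Nat.cast_sub hg]
      ring
    have hs : 4 * ((t : ℤ) ^ 2 + 1) - 12 * g + 20 ≤ F.sig := by
      unfold Fibration.sig Fibration.bPlus Fibration.bMinus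
      have a1 : ((4 * (t ^ 2 + 1) - 4 : ℕ) : ℤ) ≤ F.posIndex := by exact_mod_cast h3
      have a2 : (F.negIndex : ℤ) ≤ ((12 * (g - 2) : ℕ) : ℤ) := by exact_mod_cast h4
      rw [Nat.cast_mul, Nat.cast_sub hg] at a2
      rw [Nat.cast_sub (by omega)] at a1
      push_cast at a1 a2 ⊢
      linarith
    have hc1 : 5 * F.c2 - 60 * g + 108 ≤ F.c1sq := by
      unfold Fibration.c1sq
      rw [hc2]
      linarith
    have hc1' : 5 * (F.c2 : ℝ) - 60 * g + 108 ≤ (F.c1sq : ℝ) := by exact_mod_cast hc1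
    have hg' : (2 : ℝ) ≤ g := by exact_mod_cast hg
    have hc2' : (F.c2 : ℝ) = 4 * ((t : ℝ) ^ 2 + 1) + 8 * g - 16 := by
      rw [hc2]
      push_cast
      ring
    have h5 : 15 * (g : ℝ) < t * ε := by
      rwa [div_lt_iff₀ hε] at ht2
    have h6 : (t : ℝ) * ε ≤ ((t : ℝ) ^ 2 + 1) * ε := by
      apply mul_le_mul_of_nonneg_right _ hε.le
      exact_mod_cast hkt
    have h7 : 60 * (g : ℝ) < F.c2 * ε := by
      rw [hc2']
      nlinarith
    linarith

end Pool.Agent.Helper21.HLFTheorem
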