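import Mathlib
import Pool.Agent.Helper36.Ses.Common

/-!
# Local rings of closed points: units, values, generators of the maximal ideal
-/

open MvPolynomial

namespace Seshadri

/-- evaluating a homogeneous polynomial at a rescaled vector -/
theorem aeval_div_homog {k A ι : Type} [Field k] [Field A] [Algebra k A] (v : ι → A) (c : A)
    (hc : c ≠ 0) {d : ℕ} {F : MvPolynomial ι k} (hF : F.IsHomogeneous d) :
    c ^ d * aeval (fun p => v p / c) F = aeval v F := by
  rw [aeval_def, aeval_def, eval₂_eq, eval₂_eq, Finset.mul_sum]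
  refine Finset.sum_congr rfl fun m hm => ?_
  have hdeg : ∑ i ∈ m.support, m i = d := by
    have := hF (mem_support_iff.1 hm)
    rw [← this, Finsupp.weight_apply]
    simp [Finsupp.sum]
  have : c ^ d = ∏ i ∈ m.support, c ^ m i := by
    rw [Finset.prod_pow_eq_pow_sum, hdeg]
  rw [this, mul_left_comm, ← Finset.prod_mul_distrib]
  congr 1
  refine Finset.prod_congr rfl fun i _ => ?_
  rw [div_pow, mul_div_cancel₀ _ (pow_ne_zero _ hc)]

namespace ProjVar

variable {k : Type} [Field k] {ι : Type} (X : ProjVar k ι) (a : X.Point)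

/-- a form that does not vanish at a point does not vanish at the generic point -/
theorem gen_ne_of_point {d : ℕ} {G : MvPolynomial ι k} (hG : G.IsHomogeneous d)
    (h : aeval a.coord G ≠ 0) : aeval X.gen G ≠ 0 := fun h0 => h (a.mem d G hG h0)

theorem gen_coord_ne {p : ι} (h : a.coord p ≠ 0) : X.gen p ≠ 0 := by
  have := X.gen_ne_of_point a (isHomogeneous_X k p) (by simpa using h)
  simpa using this

/-- the ratio of two coordinates has the expected value -/
theorem value_coord {p q : ι} (h : a.coord q ≠ 0) :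
    X.Value a.coord (X.gen p / X.gen q) (a.coord p / a.coord q) := by
  refine ⟨1, MvPolynomial.X p, MvPolynomial.X q, isHomogeneous_X k p, isHomogeneous_X k q,
    by simpa using h, ?_, ?_⟩
  · rw [aeval_X, aeval_X, div_mul_cancel₀ _ (X.gen_coord_ne a h)]
  · rw [aeval_X, aeval_X, div_mul_cancel₀ _ h]

/-- values are unique -/
theorem value_unique {u : X.K} {t t' : k} (h : X.Value a.coord u t)
    (h' : X.Value a.coord u t') : t = t' := by
  obtain ⟨d, F, G, hF, hG, h0, h1, h2⟩ := h
  obtain ⟨d', F', G', hF', hG', h0', h1', h2'⟩ := h'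
  have key : aeval X.gen (F * G' - F' * G) = 0 := by
    rw [map_sub, map_mul, map_mul, ← h1, ← h1']; ring
  have hom : (F * G' - F' * G).IsHomogeneous (d + d') := by
    refine (hF.mul hG').sub ?_
    have := hF'.mul hG
    rwa [add_comm] at this
  have := a.mem _ _ hom key
  rw [map_sub, map_mul, map_mul, ← h2, ← h2'] at this
  have h3 : (t - t') * (aeval a.coord G * aeval a.coord G') = 0 := by
    linear_combination this
  rcases mul_eq_zero.1 h3 with h4 | h4
  · exact sub_eq_zero.1 h4
  · exact absurd h4 (mul_ne_zero h0 h0')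

theorem value_mul {u u' : X.K} {t t' : k} (h : X.Value a.coord u t)
    (h' : X.Value a.coord u' t') : X.Value a.coord (u * u') (t * t') := by
  obtain ⟨d, F, G, hF, hG, h0, h1, h2⟩ := h
  obtain ⟨d', F', G', hF', hG', h0', h1', h2'⟩ := h'
  refine ⟨d + d', F * F', G * G', hF.mul hF', hG.mul hG', ?_, ?_, ?_⟩
  · rw [map_mul]; exact mul_ne_zero h0 h0'
  · rw [map_mul, map_mul, ← h1, ← h1']; ring
  · rw [map_mul, map_mul, ← h2, ← h2']; ring

theorem value_add {u u' : X.K} {t t' : k} (h : X.Value a.coord u t)
    (h' : X.Value a.coord u' t') : X.Value a.coord (u + u') (t + t') := by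
  obtain ⟨d, F, G, hF, hG, h0, h1, h2⟩ := h
  obtain ⟨d', F', G', hF', hG', h0', h1', h2'⟩ := h'
  refine ⟨d + d', F * G' + G * F', G * G', (hF.mul hG').add (hG.mul hF'),
      hG.mul hG', ?_, ?_, ?_⟩
  · rw [map_mul]; exact mul_ne_zero h0 h0'
  · rw [map_mul, map_add, map_mul, map_mul, ← h1, ← h1']; ring
  · rw [map_mul, map_add, map_mul, map_mul, ← h2, ← h2']; ring

theorem value_const (c : k) : X.Value a.coord (algebraMap k X.K c) c :=
  ⟨0, C c, 1, isHomogeneous_C _ _, isHomogeneous_one _ _, by simp, by simp, by simp⟩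

/-- the value homomorphism `𝒪_{X,a} → k` -/
noncomputable def ev : X.localRing a →ₐ[k] k where
  toFun u := u.2.choose
  map_one' := X.value_unique a (Subtype.property _ : X.Regular a _).choose_spec
    (by simpa using X.value_const a 1)
  map_zero' := X.value_unique a (Subtype.property _ : X.Regular a _).choose_spec
    (by simpa using X.value_const a 0)
  map_mul' u v := X.value_unique a (u * v).2.choose_spec
    (value_mul X a u.2.choose_spec v.2.choose_spec)
  map_add' u v := X.value_unique a (u + v).2.choose_spec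
    (value_add X a u.2.choose_spec v.2.choose_spec)
  commutes' c := X.value_unique a (Subtype.property _ : X.Regular a _).choose_spec
    (X.value_const a c)

theorem value_ev (u : X.localRing a) : X.Value a.coord (u : X.K) (X.ev a u) := u.2.choose_spec

theorem ev_eq {u : X.localRing a} {t : k} (h : X.Value a.coord (u : X.K) t) : X.ev a u = t :=
  X.value_unique a (X.value_ev a u) h

theorem mem_maxIdeal {u : X.localRing a} : u ∈ X.maxIdeal a ↔ X.ev a u = 0 := by
  constructor
  · rintro ⟨d, F, G, hF, hG, h0, h1, h2⟩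
    exact X.ev_eq a ⟨d, F, G, hF, hG, h0, h1, by rw [h2, zero_mul]⟩
  · intro h
    obtain ⟨d, F, G, hF, hG, h0, h1, h2⟩ := X.value_ev a u
    exact ⟨d, F, G, hF, hG, h0, h1, by rw [← h2, h, zero_mul]⟩

/-- elements with non-zero value are units -/
theorem isUnit_of_ev_ne {u : X.localRing a} (h : X.ev a u ≠ 0) : IsUnit u := by
  obtain ⟨d, F, G, hF, hG, h0, h1, h2⟩ := X.value_ev a u
  have hFa : aeval a.coord F ≠ 0 := by rw [← h2]; exact mul_ne_zero h h0
  have hFg := X.gen_ne_of_point a hF hFa
  have hGg := X.gen_ne_of_point a hG h0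
  have hu : (u : X.K) ≠ 0 := by
    intro h3
    rw [h3, zero_mul] at h1
    exact hFg h1.symm
  have hv : X.Value a.coord (u : X.K)⁻¹ (X.ev a u)⁻¹ := by
    refine ⟨d, G, F, hG, hF, hFa, ?_, ?_⟩
    · rw [← h1, inv_mul_cancel_left₀ hu]
    · rw [← h2, inv_mul_cancel_left₀ h]
  refine IsUnit.of_mul_eq_one (⟨(u : X.K)⁻¹, ⟨_, hv⟩⟩ : X.localRing a) ?_
  apply Subtype.ext
  exact mul_inv_cancel₀ hu

theorem aeval_localRing (c : ι → X.localRing a) (F : MvPolynomial ι k) :
    ((aeval c F : X.localRing a) : X.K) = aeval (fun p => (c p : X.K)) F := by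
  have : ((aeval c F : X.localRing a) : X.K) = (X.localRing a).val (aeval c F) := rfl
  rw [this, comp_aeval_apply]
  rfl

/-- The maximal ideal at `a` is the smallest ideal containing `c_p - c_p(a)` for all `p`, where
`c_p = gen_p / gen_q` and `a_q ≠ 0`. -/
theorem maxIdeal_le {q : ι} (hq : a.coord q ≠ 0) (c : ι → X.localRing a)
    (hc : ∀ p, (c p : X.K) = X.gen p / X.gen q) (I : Ideal (X.localRing a))
    (hI : ∀ p, c p - algebraMap k _ (a.coord p / a.coord q) ∈ I) : X.maxIdeal a ≤ I := by
  have hgq := X.gen_coord_ne a hq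
  rintro u ⟨d, F, G, hF, hG, h0, h1, h2⟩
  have hev : ∀ (H : MvPolynomial ι k), H.IsHomogeneous d →
      X.gen q ^ d * ((aeval c H : X.localRing a) : X.K) = aeval X.gen H := by
    intro H hH
    rw [aeval_localRing, ← aeval_div_homog X.gen (X.gen q) hgq hH]
    have : (fun p => ((c p : X.localRing a) : X.K)) = fun p => X.gen p / X.gen q :=
      funext hc
    rw [this]
  have hmod : ∀ (H : MvPolynomial ι k), H.IsHomogeneous d →
      aeval c H - algebraMap k _ (aeval a.coord H / a.coord q ^ d) ∈ I := by
    intro H hH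
    rw [← Ideal.Quotient.eq]
    have e1 : Ideal.Quotient.mk I (aeval c H) =
        aeval (fun p => Ideal.Quotient.mk I (c p)) H := by
      have : Ideal.Quotient.mk I (aeval c H) = Ideal.Quotient.mkₐ k I (aeval c H) := rfl
      rw [this, comp_aeval_apply]
      rfl
    have e2 : (fun p => Ideal.Quotient.mk I (c p)) =
        fun p => algebraMap k (X.localRing a ⧸ I) (a.coord p / a.coord q) := by
      funext p
      exact Ideal.Quotient.eq.2 (hI p)
    rw [e1, e2]
    have e3 : aeval (fun p => algebraMap k (X.localRing a ⧸ I) (a.coord p / a.coord q)) H =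
        algebraMap k (X.localRing a ⧸ I) (aeval (fun p => a.coord p / a.coord q) H) := by
      have := comp_aeval_apply (fun p => a.coord p / a.coord q)
        (Algebra.ofId k (X.localRing a ⧸ I)) H
      simpa [Algebra.ofId_apply] using this.symm
    rw [e3, ← aeval_div_homog a.coord (a.coord q) hq hH, mul_div_cancel_left₀ _ (pow_ne_zero _ hq)]
    rfl
  have hFI : aeval c F ∈ I := by
    have := hmod F hF
    rwa [h2, zero_div, map_zero, sub_zero] at this
  have hGunit : IsUnit (aeval c G : X.localRing a) := by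
    apply X.isUnit_of_ev_ne a
    have : X.ev a (aeval c G) = aeval a.coord G / a.coord q ^ d := by
      apply X.ev_eq a
      refine ⟨d, G, MvPolynomial.X q ^ d, hG, ?_, ?_, ?_, ?_⟩
      · simpa using (isHomogeneous_X k q).pow d
      · simpa using pow_ne_zero d hq
      · rw [map_pow, aeval_X, mul_comm]; exact hev G hG
      · rw [map_pow, aeval_X, div_mul_cancel₀ _ (pow_ne_zero _ hq)]
    rw [this]
    exact div_ne_zero h0 (pow_ne_zero _ hq)
  have huG : u * aeval c G = aeval c F := by
    apply Subtype.ext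
    have h3 := hev G hG
    have h4 := hev F hF
    rw [← h3, ← h4] at h1
    have h5 : X.gen q ^ d ≠ 0 := pow_ne_zero _ hgq
    apply mul_left_cancel₀ h5
    rw [← h1]
    push_cast
    ring
  obtain ⟨v, hv⟩ := hGunit.exists_right_inv
  have : u = aeval c F * v := by rw [← huG, mul_assoc, hv, mul_one]
  rw [this]
  exact I.mul_mem_right _ hFI

end ProjVar

end Seshadri
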