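import Mathlib
import Pool.Agent.Helper36.Ses.Common
import Pool.Agent.Helper21.SesLocal

/-!
# The surface `E × B ⊆ ℙ¹⁴`
-/

open MvPolynomial

namespace Seshadri

/-- homogenisation -/
theorem exists_homogenisation {k K ι : Type} [Field k] [Field K] [Algebra k K] (v : ι → K)
    (i₀ : ι) (h0 : v i₀ ≠ 0) (P : MvPolynomial ι k) (D : ℕ) (hD : P.totalDegree ≤ D) :
    ∃ F : MvPolynomial ι k, F.IsHomogeneous D ∧
      aeval v F = v i₀ ^ D * aeval (fun i => v i / v i₀) P := by
  refine ⟨∑ m ∈ P.support, monomial m (P.coeff m) * X i₀ ^ (D - m.sum fun _ e => e), ?_, ?_⟩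
  · refine IsHomogeneous.sum _ _ _ fun m hm => ?_
    have hm' : (m.sum fun _ e => e) ≤ D := (le_totalDegree hm).trans hD
    have h1 : (monomial m (P.coeff m)).IsHomogeneous (m.sum fun _ e => e) :=
      isHomogeneous_monomial _ rfl
    have h2 : (X i₀ ^ (D - m.sum fun _ e => e) : MvPolynomial ι k).IsHomogeneous
        (D - m.sum fun _ e => e) := by
      simpa using (isHomogeneous_X k i₀).pow (D - m.sum fun _ e => e)
    have := h1.mul h2
    rwa [Nat.add_sub_cancel' hm'] at this
  · rw [map_sum, aeval_def, eval₂_eq, Finset.mul_sum]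
    refine Finset.sum_congr rfl fun m hm => ?_
    have hm' : (m.sum fun _ e => e) ≤ D := (le_totalDegree hm).trans hD
    rw [aeval_def, eval₂_mul, eval₂_monomial, eval₂_pow, eval₂_X]
    have h1 : v i₀ ^ D = v i₀ ^ (D - m.sum fun _ e => e) * ∏ i ∈ m.support, v i₀ ^ m i := by
      rw [Finset.prod_pow_eq_pow_sum, ← pow_add]
      congr 1
      have : ∑ i ∈ m.support, m i = m.sum fun _ e => e := rfl
      rw [this]; omega
    have h2 : (m.prod fun n e => v n ^ e) =
        (∏ i ∈ m.support, v i₀ ^ m i) * ∏ i ∈ m.support, (v i / v i₀) ^ m i := by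
      rw [← Finset.prod_mul_distrib]
      refine Finset.prod_congr rfl fun i _ => ?_
      rw [div_pow, mul_div_cancel₀ _ (pow_ne_zero _ h0)]
    rw [h1, h2]
    ring

/-- elements of the field generated by the ratios of the coordinates of a vector are
quotients of homogeneous forms. -/
theorem span_of_adjoin' {k K ι : Type} [Field k] [Field K] [Algebra k K] (v : ι → K) (i₀ : ι)
    (h0 : v i₀ ≠ 0)
    (hadj : IntermediateField.adjoin k (Set.range fun i => v i / v i₀) = ⊤) (u : K) :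
    ∃ (d : ℕ) (F G : MvPolynomial ι k), F.IsHomogeneous d ∧ G.IsHomogeneous d ∧
      MvPolynomial.aeval v G ≠ 0 ∧ u * MvPolynomial.aeval v G = MvPolynomial.aeval v F := by
  have hu : u ∈ IntermediateField.adjoin k (Set.range fun i => v i / v i₀) := by
    rw [hadj]; trivial
  rw [IntermediateField.mem_adjoin_range_iff] at hu
  obtain ⟨r, s, hrs⟩ := hu
  by_cases hs : aeval (fun i => v i / v i₀) s = 0
  · refine ⟨0, 0, 1, isHomogeneous_zero _ _ _, isHomogeneous_one _ _, by simp, ?_⟩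
    rw [hrs, hs, div_zero, zero_mul, map_zero]
  · obtain ⟨F, hF, hF'⟩ := exists_homogenisation v i₀ h0 r (max r.totalDegree s.totalDegree)
      (le_max_left _ _)
    obtain ⟨G, hG, hG'⟩ := exists_homogenisation v i₀ h0 s (max r.totalDegree s.totalDegree)
      (le_max_right _ _)
    refine ⟨_, F, G, hF, hG, ?_, ?_⟩
    · rw [hG']
      exact mul_ne_zero (pow_ne_zero _ h0) hs
    · rw [hF', hG', hrs]
      field_simp

variable {k : Type} [Field k]

/-- The surface `E × B ⊆ ℙ¹⁴`. -/
noncomputable def surf (g : GenPt k) : ProjVar k (Fin 3 × Fin 5) where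
  K := g.K
  gen := segre ![1, g.x, g.y] ![1, g.z, g.z ^ 2, g.z ^ 3, g.w]
  gen_ne_zero := by
    intro h
    have := congrFun h (0, 0)
    simp [segre] at this
  gen_span := by
    refine span_of_adjoin' _ (0, 0) (by simp [segre]) ?_
    rw [eq_top_iff, ← g.adjoin_eq_top, IntermediateField.adjoin_le_iff]
    rintro u (rfl | rfl | rfl | rfl)
    · exact IntermediateField.subset_adjoin _ _ ⟨(1, 0), by simp [segre]⟩
    · exact IntermediateField.subset_adjoin _ _ ⟨(2, 0), by simp [segre]⟩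
    · exact IntermediateField.subset_adjoin _ _ ⟨(0, 1), by simp [segre]⟩
    · exact IntermediateField.subset_adjoin _ _ ⟨(0, 4), by simp [segre]⟩

theorem aeval_surf_gen (g : GenPt k) (F : MvPolynomial (Fin 3 × Fin 5) k) :
    (aeval (surf g).gen F = 0) = (aeval (segre (![1, g.x, g.y] : Fin 3 → g.K)
      (![1, g.z, g.z ^ 2, g.z ^ 3, g.w] : Fin 5 → g.K)) F = 0) := rfl

theorem surf_gen (g : GenPt k) (i : Fin 3) (j : Fin 5) :
    (surf g).gen (i, j) = (![1, g.x, g.y] : Fin 3 → g.K) i *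
      (![1, g.z, g.z ^ 2, g.z ^ 3, g.w] : Fin 5 → g.K) j := rfl

/-- (O6a) the closed points of `E × B` -/
theorem surf_point_cases (g : GenPt k) (a : (surf g).Point) :
    ∃ (e : Fin 3 → k) (b : Fin 5 → k), e ≠ 0 ∧ b ≠ 0 ∧ a.coord = segre e b ∧
      e 2 ^ 2 * e 0 = e 1 ^ 3 + e 0 ^ 3 ∧ b 1 ^ 2 = b 0 * b 2 ∧ b 0 * b 3 = b 1 * b 2 ∧
      b 2 ^ 2 = b 1 * b 3 ∧ b 4 ^ 2 = b 0 ^ 2 + b 3 ^ 2 := by
  obtain ⟨⟨i0, j0⟩, h0⟩ := Function.ne_iff.1 a.ne_zero
  rw [Pi.zero_apply] at h0
  have hX : ∀ p : Fin 3 × Fin 5, (X p : MvPolynomial (Fin 3 × Fin 5) k).IsHomogeneous 1 :=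
    isHomogeneous_X k
  have hseg : ∀ i j i' j', a.coord (i, j) * a.coord (i', j') =
      a.coord (i, j') * a.coord (i', j) := by
    intro i j i' j'
    have := a.mem 2 (X (i, j) * X (i', j') - X (i, j') * X (i', j))
      (((hX _).mul (hX _)).sub ((hX _).mul (hX _)))
      (by
        rw [aeval_surf_gen]
        simp only [map_sub, map_mul, aeval_X, segre]; ring)
    simp only [map_sub, map_mul, aeval_X] at this
    exact sub_eq_zero.1 this
  have hcub : a.coord (2, j0) ^ 2 * a.coord (0, j0) =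
      a.coord (1, j0) ^ 3 + a.coord (0, j0) ^ 3 := by
    have := a.mem 3 (X (2, j0) ^ 2 * X (0, j0) - (X (1, j0) ^ 3 + X (0, j0) ^ 3))
      ((((hX _).pow 2).mul (hX _)).sub (((hX _).pow 3).add ((hX _).pow 3)))
      (by
        rw [aeval_surf_gen]
        simp only [map_sub, map_add, map_pow, map_mul, aeval_X, segre]
        simp
        linear_combination (![1, g.z, g.z ^ 2, g.z ^ 3, g.w] : Fin 5 → g.K) j0 ^ 3 * g.hE)
    simp only [map_sub, map_add, map_pow, map_mul, aeval_X] at this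
    exact sub_eq_zero.1 this
  have hq : ∀ j1 j2 j3 j4 : Fin 5, (![1, g.z, g.z ^ 2, g.z ^ 3, g.w] : Fin 5 → g.K) j1 *
      (![1, g.z, g.z ^ 2, g.z ^ 3, g.w] : Fin 5 → g.K) j2 =
      (![1, g.z, g.z ^ 2, g.z ^ 3, g.w] : Fin 5 → g.K) j3 *
      (![1, g.z, g.z ^ 2, g.z ^ 3, g.w] : Fin 5 → g.K) j4 →
      a.coord (i0, j1) * a.coord (i0, j2) = a.coord (i0, j3) * a.coord (i0, j4) := by
    intro j1 j2 j3 j4 h
    have := a.mem 2 (X (i0, j1) * X (i0, j2) - X (i0, j3) * X (i0, j4))
      (((hX _).mul (hX _)).sub ((hX _).mul (hX _)))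
      (by
        rw [aeval_surf_gen]
        simp only [map_sub, map_mul, aeval_X, segre]
        linear_combination (![1, g.x, g.y] : Fin 3 → g.K) i0 ^ 2 * h)
    simp only [map_sub, map_mul, aeval_X] at this
    exact sub_eq_zero.1 this
  have hlast : a.coord (i0, 4) ^ 2 = a.coord (i0, 0) ^ 2 + a.coord (i0, 3) ^ 2 := by
    have := a.mem 2 (X (i0, 4) ^ 2 - (X (i0, 0) ^ 2 + X (i0, 3) ^ 2))
      (((hX _).pow 2).sub (((hX _).pow 2).add ((hX _).pow 2)))
      (by
        rw [aeval_surf_gen]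
        simp only [map_sub, map_add, map_pow, aeval_X, segre]
        simp
        linear_combination (![1, g.x, g.y] : Fin 3 → g.K) i0 ^ 2 * g.hB)
    simp only [map_sub, map_add, map_pow, aeval_X] at this
    exact sub_eq_zero.1 this
  have hc : a.coord (i0, j0) ≠ 0 := h0
  refine ⟨fun i => a.coord (i, j0), fun j => a.coord (i0, j) / a.coord (i0, j0), ?_, ?_, ?_,
    hcub, ?_, ?_, ?_, ?_⟩
  · intro h; exact h0 (congrFun h i0)
  · intro h
    have := congrFun h j0
    simp only [Pi.zero_apply] at this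
    rw [div_self h0] at this
    exact one_ne_zero this
  · funext ⟨i, j⟩
    simp only [segre]
    rw [mul_div_assoc', eq_div_iff hc]
    exact hseg _ _ _ _
  · have := hq 1 1 0 2 (by simp; ring)
    field_simp
    linear_combination this
  · have := hq 0 3 1 2 (by simp; ring)
    field_simp
    linear_combination this
  · have := hq 2 2 1 3 (by simp; ring)
    field_simp
    linear_combination this
  · field_simp
    linear_combination hlast

section charts

variable {X : ProjVar k (Fin 3 × Fin 5)} {x y z w : X.K}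

theorem exists_inv (a : X.Point) {u : X.localRing a} (h : X.ev a u ≠ 0) :
    ∃ v : X.localRing a, (u : X.K) * (v : X.K) = 1 := by
  obtain ⟨v, hv⟩ := (X.isUnit_of_ev_ne a h).exists_right_inv
  exact ⟨v, by rw [← MulMemClass.coe_mul, hv]; rfl⟩

theorem exists_ratio (a : X.Point) (p q : Fin 3 × Fin 5) (h : a.coord q ≠ 0) {u : X.K} {t : k}
    (hu : u = X.gen p / X.gen q) (ht : t = a.coord p / a.coord q) :
    ∃ v : X.localRing a, (v : X.K) = u ∧ X.ev a v = t := by
  have := X.value_coord a (p := p) h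
  rw [← hu, ← ht] at this
  exact ⟨⟨u, t, this⟩, rfl, X.ev_eq a this⟩

theorem chart_E [CharP k 7]
    (hgen : ∀ i j, X.gen (i, j) = (![1, x, y] : Fin 3 → X.K) i *
      (![1, z, z ^ 2, z ^ 3, w] : Fin 5 → X.K) j)
    (hE : y ^ 2 = x ^ 3 + 1) (a : X.Point) {e : Fin 3 → k} {b : Fin 5 → k}
    (ha : ∀ i j, a.coord (i, j) = e i * b j) (he : e ≠ 0)
    (heq : e 2 ^ 2 * e 0 = e 1 ^ 3 + e 0 ^ 3) (j0 : Fin 5) (hj : b j0 ≠ 0) :
    ∃ i0, e i0 ≠ 0 ∧ ∃ s : X.localRing a, X.ev a s = 0 ∧ (e 0 = 0 → (s : X.K) = x / y) ∧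
      ∀ i, ∃ r : X.localRing a,
      ((![1, x, y] : Fin 3 → X.K) i / (![1, x, y] : Fin 3 → X.K) i0) =
        algebraMap k X.K (e i / e i0) + (s : X.K) * (r : X.K) := by
  have hratio : ∀ i i0 : Fin 3, e i0 ≠ 0 → ∃ v : X.localRing a,
      (v : X.K) = (![1, x, y] : Fin 3 → X.K) i / (![1, x, y] : Fin 3 → X.K) i0 ∧
      X.ev a v = e i / e i0 := by
    intro i i0 hi0
    have hq : a.coord (i0, j0) ≠ 0 := by rw [ha]; exact mul_ne_zero hi0 hj
    have hg : X.gen (i0, j0) ≠ 0 := X.gen_coord_ne a hq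
    rw [hgen] at hg
    refine exists_ratio a (i, j0) (i0, j0) hq ?_ ?_
    · rw [hgen, hgen, mul_div_mul_right _ _ (right_ne_zero_of_mul hg)]
    · rw [ha, ha, mul_div_mul_right _ _ hj]
  by_cases h0 : e 0 = 0
  · have h1 : e 1 = 0 := by
      rw [h0] at heq
      have : e 1 ^ 3 = 0 := by linear_combination -heq
      exact pow_eq_zero_iff (three_ne_zero) |>.1 this
    have h2 : e 2 ≠ 0 := by
      intro h2
      apply he
      funext i
      fin_cases i
      · exact h0
      · exact h1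
      · exact h2
    obtain ⟨ξ, hξ, hξ'⟩ := hratio 1 2 h2
    obtain ⟨η, hη, hη'⟩ := hratio 0 2 h2
    have hy : y ≠ 0 := by
      have hq : a.coord (2, j0) ≠ 0 := by rw [ha]; exact mul_ne_zero h2 hj
      have hg : X.gen (2, j0) ≠ 0 := X.gen_coord_ne a hq
      rw [hgen] at hg
      simpa using left_ne_zero_of_mul hg
    simp only [Matrix.cons_val_zero, Matrix.cons_val_one, Matrix.cons_val] at hξ hη
    rw [h1, zero_div] at hξ'
    rw [h0, zero_div] at hη'
    have hu : X.ev a (1 - η ^ 2) ≠ 0 := by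
      rw [map_sub, map_pow, map_one, hη']
      norm_num
    obtain ⟨v, hv⟩ := exists_inv a hu
    simp only [Subalgebra.coe_sub, Subalgebra.coe_pow, Subalgebra.coe_one] at hv
    have c0 : ∃ r : X.localRing a, (1 / y : X.K) =
        algebraMap k X.K (e 0 / e 2) + (ξ : X.K) * (r : X.K) := by
      refine ⟨ξ ^ 2 * v, ?_⟩
      rw [h0, zero_div, map_zero, zero_add]
      simp only [Subalgebra.coe_mul, Subalgebra.coe_pow]
      rw [hη] at hv
      rw [hξ]
      have h3 : (x / y) ^ 3 = 1 / y * (1 - (1 / y) ^ 2) := by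
        field_simp
        linear_combination -hE
      calc 1 / y = 1 / y * ((1 - (1 / y) ^ 2) * (v : X.K)) := by rw [hv, mul_one]
        _ = (x / y) ^ 3 * (v : X.K) := by rw [h3]; ring
        _ = _ := by ring
    have c1 : ∃ r : X.localRing a, (x / y : X.K) =
        algebraMap k X.K (e 1 / e 2) + (ξ : X.K) * (r : X.K) :=
      ⟨1, by rw [h1, zero_div, map_zero, zero_add, hξ, Subalgebra.coe_one, mul_one]⟩
    have c2 : ∃ r : X.localRing a, (y / y : X.K) =
        algebraMap k X.K (e 2 / e 2) + (ξ : X.K) * (r : X.K) :=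
      ⟨0, by rw [div_self h2, div_self hy, map_one, Subalgebra.coe_zero, mul_zero, add_zero]⟩
    refine ⟨2, h2, ξ, hξ', fun _ => hξ, fun i => ?_⟩
    fin_cases i
    · exact c0
    · exact c1
    · exact c2
  · obtain ⟨xr, hx, hx'⟩ := hratio 1 0 h0
    obtain ⟨yr, hy, hy'⟩ := hratio 2 0 h0
    simp only [Matrix.cons_val_zero, Matrix.cons_val_one, Matrix.cons_val, div_one] at hx hy
    have hrel : (e 2 / e 0) ^ 2 = (e 1 / e 0) ^ 3 + 1 := by
      field_simp
      linear_combination heq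
    obtain ⟨x0, hx0⟩ : ∃ x0, x0 = e 1 / e 0 := ⟨_, rfl⟩
    obtain ⟨y0, hy0⟩ : ∃ y0, y0 = e 2 / e 0 := ⟨_, rfl⟩
    rw [← hx0] at hx' hrel
    rw [← hy0] at hy' hrel
    have c0 : ∀ s : X.localRing a, ∃ r : X.localRing a, (1 / 1 : X.K) =
        algebraMap k X.K (e 0 / e 0) + (s : X.K) * (r : X.K) := fun s =>
      ⟨0, by rw [div_self h0, div_self one_ne_zero, map_one, Subalgebra.coe_zero, mul_zero,
        add_zero]⟩
    by_cases hy00 : y0 = 0
    · -- parameter y
      have hx00 : x0 ≠ 0 := by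
        intro h
        rw [hy00, h] at hrel
        norm_num at hrel
      have hu : X.ev a (xr ^ 2 + xr * algebraMap k _ x0 + algebraMap k _ x0 ^ 2) ≠ 0 := by
        rw [map_add, map_add, map_mul, map_pow, map_pow, AlgHom.commutes, hx']
        have : x0 ^ 2 + x0 * x0 + x0 ^ 2 = 3 * x0 ^ 2 := by ring
        simp only [Algebra.algebraMap_self, RingHom.id_apply]
        rw [this]
        exact mul_ne_zero three_ne (pow_ne_zero _ hx00)
      obtain ⟨v, hv⟩ := exists_inv a hu
      simp only [Subalgebra.coe_mul, Subalgebra.coe_add, Subalgebra.coe_pow,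
        Subalgebra.coe_algebraMap] at hv
      have hx3 : algebraMap k X.K x0 ^ 3 = -1 := by
        rw [← map_pow]
        have : x0 ^ 3 = -1 := by rw [hy00] at hrel; linear_combination -hrel
        rw [this]; simp
      rw [hx] at hv
      have c1 : ∃ r : X.localRing a, (x / 1 : X.K) =
          algebraMap k X.K (e 1 / e 0) + (yr : X.K) * (r : X.K) := by
        refine ⟨yr * v, ?_⟩
        rw [← hx0, div_one, Subalgebra.coe_mul, hy]
        linear_combination (-(v : X.K)) * hE +
          (-(v : X.K)) * hx3 + (algebraMap k X.K x0 - x) * hv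
      have c2 : ∃ r : X.localRing a, (y / 1 : X.K) =
          algebraMap k X.K (e 2 / e 0) + (yr : X.K) * (r : X.K) :=
        ⟨1, by rw [← hy0, hy00, map_zero, zero_add, hy, Subalgebra.coe_one, mul_one, div_one]⟩
      refine ⟨0, h0, yr, by rw [hy', hy00], fun h => absurd h h0, fun i => ?_⟩
      fin_cases i
      · exact c0 _
      · exact c1
      · exact c2
    · have hu : X.ev a (yr + algebraMap k _ y0) ≠ 0 := by
        rw [map_add, AlgHom.commutes, hy']
        have : y0 + y0 = 2 * y0 := by ring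
        simp only [Algebra.algebraMap_self, RingHom.id_apply]
        rw [this]
        exact mul_ne_zero two_ne hy00
      obtain ⟨v, hv⟩ := exists_inv a hu
      simp only [Subalgebra.coe_add, Subalgebra.coe_algebraMap] at hv
      rw [hy] at hv
      have hrel' : algebraMap k X.K y0 ^ 2 = algebraMap k X.K x0 ^ 3 + 1 := by
        rw [← map_pow, hrel]; simp
      have hs : ((xr - algebraMap k _ x0 : X.localRing a) : X.K) = x - algebraMap k X.K x0 := by
        rw [Subalgebra.coe_sub, Subalgebra.coe_algebraMap, hx]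
      have c1 : ∃ r : X.localRing a, (x / 1 : X.K) =
          algebraMap k X.K (e 1 / e 0) +
            ((xr - algebraMap k _ x0 : X.localRing a) : X.K) * (r : X.K) :=
        ⟨1, by rw [hs, ← hx0, Subalgebra.coe_one]; ring⟩
      have c2 : ∃ r : X.localRing a, (y / 1 : X.K) =
          algebraMap k X.K (e 2 / e 0) +
            ((xr - algebraMap k _ x0 : X.localRing a) : X.K) * (r : X.K) := by
        refine ⟨(xr ^ 2 + xr * algebraMap k _ x0 + algebraMap k _ x0 ^ 2) * v, ?_⟩
        rw [hs, ← hy0, div_one]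
        simp only [Subalgebra.coe_mul, Subalgebra.coe_add, Subalgebra.coe_pow,
          Subalgebra.coe_algebraMap]
        rw [hx]
        linear_combination (v : X.K) * hE - (v : X.K) * hrel' + (algebraMap k X.K y0 - y) * hv
      refine ⟨0, h0, xr - algebraMap k _ x0, by rw [map_sub, AlgHom.commutes, hx']; simp,
        fun h => absurd h h0, fun i => ?_⟩
      fin_cases i
      · exact c0 _
      · exact c1
      · exact c2

theorem chart_B [CharP k 7]
    (hgen : ∀ i j, X.gen (i, j) = (![1, x, y] : Fin 3 → X.K) i *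
      (![1, z, z ^ 2, z ^ 3, w] : Fin 5 → X.K) j)
    (hB : w ^ 2 = z ^ 6 + 1) (a : X.Point) {e : Fin 3 → k} {b : Fin 5 → k}
    (ha : ∀ i j, a.coord (i, j) = e i * b j) (hb : b ≠ 0)
    (q1 : b 1 ^ 2 = b 0 * b 2) (q2 : b 0 * b 3 = b 1 * b 2) (q3 : b 2 ^ 2 = b 1 * b 3)
    (q4 : b 4 ^ 2 = b 0 ^ 2 + b 3 ^ 2) (i0 : Fin 3) (hi : e i0 ≠ 0) :
    ∃ j0, b j0 ≠ 0 ∧ ∃ s : X.localRing a, X.ev a s = 0 ∧
      (b 0 ≠ 0 → b 1 = 0 → b 4 ≠ 0 → (s : X.K) = z) ∧ ∀ j, ∃ r : X.localRing a,
      ((![1, z, z ^ 2, z ^ 3, w] : Fin 5 → X.K) j /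
        (![1, z, z ^ 2, z ^ 3, w] : Fin 5 → X.K) j0) =
        algebraMap k X.K (b j / b j0) + (s : X.K) * (r : X.K) := by
  have hratio : ∀ j j0 : Fin 5, b j0 ≠ 0 → ∃ v : X.localRing a,
      (v : X.K) = (![1, z, z ^ 2, z ^ 3, w] : Fin 5 → X.K) j /
        (![1, z, z ^ 2, z ^ 3, w] : Fin 5 → X.K) j0 ∧
      X.ev a v = b j / b j0 := by
    intro j j0 hj0
    have hq : a.coord (i0, j0) ≠ 0 := by rw [ha]; exact mul_ne_zero hi hj0
    have hg : X.gen (i0, j0) ≠ 0 := X.gen_coord_ne a hq
    rw [hgen] at hg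
    refine exists_ratio a (i0, j) (i0, j0) hq ?_ ?_
    · rw [hgen, hgen, mul_div_mul_left _ _ (left_ne_zero_of_mul hg)]
    · rw [ha, ha, mul_div_mul_left _ _ hi]
  by_cases h0 : b 0 = 0
  · have h1 : b 1 = 0 := by
      rw [h0, zero_mul] at q1
      exact pow_eq_zero_iff (two_ne_zero) |>.1 q1
    have h2 : b 2 = 0 := by
      rw [h1, zero_mul] at q3
      exact pow_eq_zero_iff (two_ne_zero) |>.1 q3
    have h3 : b 3 ≠ 0 := by
      intro h3
      rw [h0, h3] at q4
      have h4 : b 4 = 0 := by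
        have : b 4 ^ 2 = 0 := by rw [q4]; ring
        exact pow_eq_zero_iff (two_ne_zero) |>.1 this
      apply hb
      funext i
      fin_cases i
      · exact h0
      · exact h1
      · exact h2
      · exact h3
      · exact h4
    have hz : z ≠ 0 := by
      have hq : a.coord (i0, 3) ≠ 0 := by rw [ha]; exact mul_ne_zero hi h3
      have hg : X.gen (i0, 3) ≠ 0 := X.gen_coord_ne a hq
      rw [hgen] at hg
      have := right_ne_zero_of_mul hg
      simp only [Matrix.cons_val] at this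
      exact fun h => this (by rw [h]; ring)
    obtain ⟨ζ, hζ, hζ'⟩ := hratio 2 3 h3
    obtain ⟨ω, hω, hω'⟩ := hratio 4 3 h3
    simp only [Matrix.cons_val] at hζ hω
    rw [h2, zero_div] at hζ'
    obtain ⟨w0, hw0⟩ : ∃ w0, w0 = b 4 / b 3 := ⟨_, rfl⟩
    rw [← hw0] at hω'
    have hw2 : w0 ^ 2 = 1 := by
      rw [hw0]
      field_simp
      rw [q4, h0]; ring
    have hw00 : w0 ≠ 0 := by
      intro h; rw [h] at hw2; norm_num at hw2
    have hw2' : algebraMap k X.K w0 ^ 2 = 1 := by rw [← map_pow, hw2, map_one]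
    have hu : X.ev a (ω + algebraMap k _ w0) ≠ 0 := by
      rw [map_add, AlgHom.commutes, hω']
      have : w0 + w0 = 2 * w0 := by ring
      simp only [Algebra.algebraMap_self, RingHom.id_apply]
      rw [this]
      exact mul_ne_zero two_ne hw00
    obtain ⟨v, hv⟩ := exists_inv a hu
    simp only [Subalgebra.coe_add, Subalgebra.coe_algebraMap] at hv
    have c0 : ∃ r : X.localRing a, (1 / z ^ 3 : X.K) =
        algebraMap k X.K (b 0 / b 3) + (ζ : X.K) * (r : X.K) := by
      refine ⟨ζ ^ 2, ?_⟩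
      rw [h0, zero_div, map_zero, zero_add, Subalgebra.coe_pow, hζ]
      field_simp
    have c1 : ∃ r : X.localRing a, (z / z ^ 3 : X.K) =
        algebraMap k X.K (b 1 / b 3) + (ζ : X.K) * (r : X.K) := by
      refine ⟨ζ, ?_⟩
      rw [h1, zero_div, map_zero, zero_add, hζ]
      field_simp
    have c2 : ∃ r : X.localRing a, (z ^ 2 / z ^ 3 : X.K) =
        algebraMap k X.K (b 2 / b 3) + (ζ : X.K) * (r : X.K) :=
      ⟨1, by rw [h2, zero_div, map_zero, zero_add, hζ, Subalgebra.coe_one, mul_one]⟩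
    have c3 : ∃ r : X.localRing a, (z ^ 3 / z ^ 3 : X.K) =
        algebraMap k X.K (b 3 / b 3) + (ζ : X.K) * (r : X.K) :=
      ⟨0, by rw [div_self h3, div_self (pow_ne_zero _ hz), map_one, Subalgebra.coe_zero,
        mul_zero, add_zero]⟩
    have c4 : ∃ r : X.localRing a, (w / z ^ 3 : X.K) =
        algebraMap k X.K (b 4 / b 3) + (ζ : X.K) * (r : X.K) := by
      refine ⟨ζ ^ 5 * v, ?_⟩
      rw [← hw0, Subalgebra.coe_mul, Subalgebra.coe_pow, hζ]
      rw [hω] at hv
      have h5 : (w / z ^ 3) ^ 2 - 1 = (z ^ 2 / z ^ 3) ^ 6 := by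
        field_simp
        linear_combination hB
      linear_combination (v : X.K) * h5 - (v : X.K) * hw2' +
        (algebraMap k X.K w0 - w / z ^ 3) * hv
    refine ⟨3, h3, ζ, hζ', fun h => absurd h0 h, fun i => ?_⟩
    fin_cases i
    · exact c0
    · exact c1
    · exact c2
    · exact c3
    · exact c4
  · obtain ⟨zr, hz, hz'⟩ := hratio 1 0 h0
    obtain ⟨wr, hw, hw'⟩ := hratio 4 0 h0
    simp only [Matrix.cons_val_zero, Matrix.cons_val_one, Matrix.cons_val, div_one] at hz hw
    obtain ⟨z0, hz0⟩ : ∃ z0, z0 = b 1 / b 0 := ⟨_, rfl⟩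
    obtain ⟨w0, hw0⟩ : ∃ w0, w0 = b 4 / b 0 := ⟨_, rfl⟩
    have hb2 : b 2 / b 0 = z0 ^ 2 := by
      rw [hz0]; field_simp; linear_combination -q1
    have hb3 : b 3 / b 0 = z0 ^ 3 := by
      have : b 3 / b 0 = z0 * (b 2 / b 0) := by
        rw [hz0]; field_simp; linear_combination q2
      rw [this, hb2]; ring
    have hrel : w0 ^ 2 = z0 ^ 6 + 1 := by
      have h5 : w0 ^ 2 = 1 + (b 3 / b 0) ^ 2 := by
        rw [hw0]; field_simp; linear_combination q4
      rw [h5, hb3]; ring
    rw [← hz0] at hz'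
    rw [← hw0] at hw'
    have hrel' : algebraMap k X.K w0 ^ 2 = algebraMap k X.K z0 ^ 6 + 1 := by
      rw [← map_pow, hrel]; simp
    have c0 : ∀ s : X.localRing a, ∃ r : X.localRing a, (1 / 1 : X.K) =
        algebraMap k X.K (b 0 / b 0) + (s : X.K) * (r : X.K) := fun s =>
      ⟨0, by rw [div_self h0, div_self one_ne_zero, map_one, Subalgebra.coe_zero, mul_zero,
        add_zero]⟩
    have c23 : ∀ s r : X.localRing a, z = algebraMap k X.K z0 + (s : X.K) * (r : X.K) →
        (∃ r : X.localRing a, (z / 1 : X.K) =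
          algebraMap k X.K (b 1 / b 0) + (s : X.K) * (r : X.K)) ∧
        (∃ r : X.localRing a, (z ^ 2 / 1 : X.K) =
          algebraMap k X.K (b 2 / b 0) + (s : X.K) * (r : X.K)) ∧
        (∃ r : X.localRing a, (z ^ 3 / 1 : X.K) =
          algebraMap k X.K (b 3 / b 0) + (s : X.K) * (r : X.K)) := by
      intro s r h
      refine ⟨⟨r, by rw [div_one, ← hz0]; exact h⟩, ⟨r * (zr + algebraMap k _ z0), ?_⟩,
        ⟨r * (zr ^ 2 + zr * algebraMap k _ z0 + algebraMap k _ z0 ^ 2), ?_⟩⟩
      · rw [hb2, div_one, map_pow]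
        simp only [Subalgebra.coe_mul, Subalgebra.coe_add, Subalgebra.coe_algebraMap]
        rw [hz]
        linear_combination (z + algebraMap k X.K z0) * h
      · rw [hb3, div_one, map_pow]
        simp only [Subalgebra.coe_mul, Subalgebra.coe_add, Subalgebra.coe_algebraMap,
          Subalgebra.coe_pow]
        rw [hz]
        linear_combination (z ^ 2 + z * algebraMap k X.K z0 + algebraMap k X.K z0 ^ 2) * h
    by_cases hw00 : w0 = 0
    · -- parameter w
      have hz00 : z0 ≠ 0 := by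
        intro h
        rw [hw00, h] at hrel
        norm_num at hrel
      have hu : X.ev a (zr ^ 5 + zr ^ 4 * algebraMap k _ z0 + zr ^ 3 * algebraMap k _ z0 ^ 2 +
          zr ^ 2 * algebraMap k _ z0 ^ 3 + zr * algebraMap k _ z0 ^ 4 +
          algebraMap k _ z0 ^ 5) ≠ 0 := by
        simp only [map_add, map_mul, map_pow, AlgHom.commutes, hz', Algebra.algebraMap_self,
          RingHom.id_apply]
        have : z0 ^ 5 + z0 ^ 4 * z0 + z0 ^ 3 * z0 ^ 2 + z0 ^ 2 * z0 ^ 3 + z0 * z0 ^ 4 +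
            z0 ^ 5 = ((2 : k) * 3) * z0 ^ 5 := by ring
        rw [this]
        exact mul_ne_zero (mul_ne_zero two_ne three_ne) (pow_ne_zero _ hz00)
      obtain ⟨v, hv⟩ := exists_inv a hu
      simp only [Subalgebra.coe_mul, Subalgebra.coe_add, Subalgebra.coe_pow,
        Subalgebra.coe_algebraMap] at hv
      rw [hz] at hv
      have hz3 : algebraMap k X.K z0 ^ 6 = -1 := by
        rw [hw00, map_zero] at hrel'
        linear_combination -hrel'
      have h1 : z = algebraMap k X.K z0 + (wr : X.K) * ((wr * v : X.localRing a) : X.K) := by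
        rw [Subalgebra.coe_mul, hw]
        linear_combination (-(v : X.K)) * hB +
          (-(v : X.K)) * hz3 + (algebraMap k X.K z0 - z) * hv
      obtain ⟨c1, c2, c3⟩ := c23 wr (wr * v) h1
      have c4 : ∃ r : X.localRing a, (w / 1 : X.K) =
          algebraMap k X.K (b 4 / b 0) + (wr : X.K) * (r : X.K) :=
        ⟨1, by rw [← hw0, hw00, map_zero, zero_add, hw, Subalgebra.coe_one, mul_one, div_one]⟩
      refine ⟨0, h0, wr, by rw [hw', hw00], fun _ _ h4 => ?_, fun i => ?_⟩
      · rw [hw0] at hw00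
        exact absurd hw00 (div_ne_zero h4 h0)
      fin_cases i
      · exact c0 _
      · exact c1
      · exact c2
      · exact c3
      · exact c4
    · have hu : X.ev a (wr + algebraMap k _ w0) ≠ 0 := by
        rw [map_add, AlgHom.commutes, hw']
        have : w0 + w0 = 2 * w0 := by ring
        simp only [Algebra.algebraMap_self, RingHom.id_apply]
        rw [this]
        exact mul_ne_zero two_ne hw00
      obtain ⟨v, hv⟩ := exists_inv a hu
      simp only [Subalgebra.coe_add, Subalgebra.coe_algebraMap] at hv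
      rw [hw] at hv
      have hs : ((zr - algebraMap k _ z0 : X.localRing a) : X.K) = z - algebraMap k X.K z0 := by
        rw [Subalgebra.coe_sub, Subalgebra.coe_algebraMap, hz]
      obtain ⟨c1, c2, c3⟩ := c23 (zr - algebraMap k _ z0) 1
        (by rw [hs, Subalgebra.coe_one]; ring)
      have c4 : ∃ r : X.localRing a, (w / 1 : X.K) =
          algebraMap k X.K (b 4 / b 0) +
            ((zr - algebraMap k _ z0 : X.localRing a) : X.K) * (r : X.K) := by
        refine ⟨(zr ^ 5 + zr ^ 4 * algebraMap k _ z0 + zr ^ 3 * algebraMap k _ z0 ^ 2 +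
          zr ^ 2 * algebraMap k _ z0 ^ 3 + zr * algebraMap k _ z0 ^ 4 +
          algebraMap k _ z0 ^ 5) * v, ?_⟩
        rw [hs, ← hw0, div_one]
        simp only [Subalgebra.coe_mul, Subalgebra.coe_add, Subalgebra.coe_pow,
          Subalgebra.coe_algebraMap]
        rw [hz]
        linear_combination (v : X.K) * hB - (v : X.K) * hrel' + (algebraMap k X.K w0 - w) * hv
      refine ⟨0, h0, zr - algebraMap k _ z0, by rw [map_sub, AlgHom.commutes, hz']; simp,
        fun _ h1 _ => by rw [hs, hz0, h1, zero_div, map_zero, sub_zero], fun i => ?_⟩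
      fin_cases i
      · exact c0 _
      · exact c1
      · exact c2
      · exact c3
      · exact c4

/-- generators of the maximal ideal from generators on the two factors -/
theorem maxIdeal_eq_span
    (hgen : ∀ i j, X.gen (i, j) = (![1, x, y] : Fin 3 → X.K) i *
      (![1, z, z ^ 2, z ^ 3, w] : Fin 5 → X.K) j)
    (a : X.Point) {e : Fin 3 → k} {b : Fin 5 → k}
    (ha : ∀ i j, a.coord (i, j) = e i * b j) {i0 : Fin 3} (hi : e i0 ≠ 0) {j0 : Fin 5}
    (hj : b j0 ≠ 0) {s t : X.localRing a} (hs : X.ev a s = 0) (ht : X.ev a t = 0)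
    (h1 : ∀ i, ∃ r : X.localRing a,
      ((![1, x, y] : Fin 3 → X.K) i / (![1, x, y] : Fin 3 → X.K) i0) =
        algebraMap k X.K (e i / e i0) + (s : X.K) * (r : X.K))
    (h2 : ∀ j, ∃ r : X.localRing a,
      ((![1, z, z ^ 2, z ^ 3, w] : Fin 5 → X.K) j /
        (![1, z, z ^ 2, z ^ 3, w] : Fin 5 → X.K) j0) =
        algebraMap k X.K (b j / b j0) + (t : X.K) * (r : X.K)) :
    X.maxIdeal a = Ideal.span {s, t} := by
  choose r hr using h1
  choose r' hr' using h2
  apply le_antisymm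
  · have hq : a.coord (i0, j0) ≠ 0 := by rw [ha]; exact mul_ne_zero hi hj
    refine X.maxIdeal_le a hq (fun p => (algebraMap k _ (e p.1 / e i0) + s * r p.1) *
      (algebraMap k _ (b p.2 / b j0) + t * r' p.2)) ?_ _ ?_
    · rintro ⟨i, j⟩
      simp only [Subalgebra.coe_mul, Subalgebra.coe_add, Subalgebra.coe_algebraMap]
      rw [hgen, hgen, mul_div_mul_comm, hr, hr']
    · rintro ⟨i, j⟩
      have h3 : a.coord (i, j) / a.coord (i0, j0) = (e i / e i0) * (b j / b j0) := by
        rw [ha, ha, mul_div_mul_comm]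
      rw [h3, map_mul]
      have hs' : s ∈ Ideal.span {s, t} := Ideal.subset_span (by simp)
      have ht' : t ∈ Ideal.span {s, t} := Ideal.subset_span (by simp)
      have h4 : (algebraMap k (X.localRing a) (e i / e i0) + s * r i) *
          (algebraMap k _ (b j / b j0) + t * r' j) -
          algebraMap k _ (e i / e i0) * algebraMap k _ (b j / b j0) =
          (r i * (algebraMap k _ (b j / b j0) + t * r' j)) * s +
            (algebraMap k _ (e i / e i0) * r' j) * t := by ring
      rw [h4]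
      exact Ideal.add_mem _ (Ideal.mul_mem_left _ _ hs') (Ideal.mul_mem_left _ _ ht')
  · rw [Ideal.span_le]
    rintro u (rfl | rfl)
    · exact (X.mem_maxIdeal a).2 hs
    · exact (X.mem_maxIdeal a).2 ht

end charts

/-- (O6b) -/
theorem surf_smooth [IsAlgClosed k] [CharP k 7] (g : GenPt k) : (surf g).IsSmoothSurface := by
  refine ⟨g.trdeg, fun a => ?_⟩
  obtain ⟨e, b, he, hb, hab, heq, q1, q2, q3, q4⟩ := surf_point_cases g a
  have ha : ∀ i j, a.coord (i, j) = e i * b j := fun i j => by rw [hab]; rfl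
  obtain ⟨i1, hi1⟩ := Function.ne_iff.1 he
  obtain ⟨j1, hj1⟩ := Function.ne_iff.1 hb
  obtain ⟨i0, hi0, s, hs, -, hs'⟩ := chart_E (X := surf g) (x := g.x) (y := g.y) (z := g.z)
    (w := g.w) (fun i j => rfl) g.hE a ha he heq j1 hj1
  obtain ⟨j0, hj0, t, ht, -, ht'⟩ := chart_B (X := surf g) (x := g.x) (y := g.y) (z := g.z)
    (w := g.w) (fun i j => rfl) g.hB a ha hb q1 q2 q3 q4 i1 hi1
  exact ⟨s, t, maxIdeal_eq_span (X := surf g) (x := g.x) (y := g.y) (z := g.z)
    (w := g.w) (fun i j => rfl) a ha hi0 hj0 hs ht hs' ht'⟩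

/-- (O6c) the two local parameters at the point `(O, (0,1))` -/
theorem surf_origin_params [CharP k 7] (g : GenPt k) (a : (surf g).Point)
    (ha : a.coord = originCoord k) :
    ∃ ξ ζ : (surf g).localRing a, (ξ : (surf g).K) = g.x / g.y ∧ (ζ : (surf g).K) = g.z ∧
      (surf g).maxIdeal a = Ideal.span {ξ, ζ} := by
  have ha' : ∀ i j, a.coord (i, j) =
      (![0, 0, 1] : Fin 3 → k) i * (![1, 0, 0, 0, 1] : Fin 5 → k) j :=
    fun i j => by rw [ha]; rfl
  have he : (![0, 0, 1] : Fin 3 → k) ≠ 0 := by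
    intro h; have := congrFun h 2; simp at this
  have hb : (![1, 0, 0, 0, 1] : Fin 5 → k) ≠ 0 := by
    intro h; have := congrFun h 0; simp at this
  obtain ⟨i0, hi0, s, hs, hs0, hs'⟩ := chart_E (X := surf g) (x := g.x) (y := g.y) (z := g.z)
    (w := g.w) (fun i j => rfl) g.hE a ha' he (by simp) 0 (by simp)
  obtain ⟨j0, hj0, t, ht, ht0, ht'⟩ := chart_B (X := surf g) (x := g.x) (y := g.y) (z := g.z)
    (w := g.w) (fun i j => rfl) g.hB a ha' hb (by simp) (by simp) (by simp) (by simp) 2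
    (by simp)
  exact ⟨s, t, hs0 (by simp), ht0 (by simp) (by simp) (by simp),
    maxIdeal_eq_span (X := surf g) (x := g.x) (y := g.y) (z := g.z)
    (w := g.w) (fun i j => rfl) a ha' hi0 hj0 hs ht hs' ht'⟩

end Seshadri
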