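import Mathlib
import Pool.Agent.Helper36.Ses.WData
import Pool.Agent.Helper36.Ses.Val
import Pool.Agent.Helper61.Ses.WPlace
import Pool.Agent.Helper21.SesSurface

/-!
# The curves `C_n ⊆ E × B`
-/

open MvPolynomial

namespace Seshadri

open Pt

namespace Place

variable {k κ : Type} [Field k] [Field κ] [Algebra k κ] (v : Place k κ)

/-- `u` is in the maximal ideal of the place `v` -/
def IsPos (u : κ) : Prop := u = 0 ∨ 0 < v.ord u

variable {v}

theorem IsPos.zero : v.IsPos 0 := Or.inl rfl

theorem IsPos.nonneg {x : κ} (h : v.IsPos x) : 0 ≤ v.ord x := by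
  rcases h with rfl | h
  · rw [v.ord_zero]
  · exact h.le

theorem nonneg_add {x y : κ} (hx : 0 ≤ v.ord x) (hy : 0 ≤ v.ord y) : 0 ≤ v.ord (x + y) := by
  by_cases hx0 : x = 0
  · rw [hx0, zero_add]; exact hy
  by_cases hy0 : y = 0
  · rw [hy0, add_zero]; exact hx
  by_cases hxy : x + y = 0
  · rw [hxy, v.ord_zero]
  · exact (le_min hx hy).trans (v.ord_add x y hx0 hy0 hxy)

theorem IsPos.add {x y : κ} (hx : v.IsPos x) (hy : v.IsPos y) : v.IsPos (x + y) := by
  by_cases hx0 : x = 0
  · rw [hx0, zero_add]; exact hy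
  by_cases hy0 : y = 0
  · rw [hy0, add_zero]; exact hx
  by_cases hxy : x + y = 0
  · exact Or.inl hxy
  · exact Or.inr ((lt_min (hx.resolve_left hx0) (hy.resolve_left hy0)).trans_le
      (v.ord_add x y hx0 hy0 hxy))

theorem IsPos.mul {x y : κ} (hx : v.IsPos x) (hy : 0 ≤ v.ord y) : v.IsPos (x * y) := by
  by_cases hx0 : x = 0
  · rw [hx0, zero_mul]; exact IsPos.zero
  by_cases hy0 : y = 0
  · rw [hy0, mul_zero]; exact IsPos.zero
  · right
    rw [v.ord_mul x y hx0 hy0]
    have := hx.resolve_left hx0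
    omega

theorem IsPos.nonneg_of_sub {x : κ} {c : k} (h : v.IsPos (x - algebraMap k κ c)) :
    0 ≤ v.ord x := by
  have := nonneg_add h.nonneg (v.ord_algebraMap c).ge
  rwa [sub_add_cancel] at this

theorem eq_zero_of_isPos {c : k} (h : v.IsPos (algebraMap k κ c)) : c = 0 := by
  rcases h with h | h
  · exact (map_eq_zero _).1 h
  · rw [v.ord_algebraMap] at h
    exact absurd h (lt_irrefl _)

theorem IsPos.mul_sub {x y : κ} {c d : k} (hx : v.IsPos (x - algebraMap k κ c))
    (hy : v.IsPos (y - algebraMap k κ d)) : v.IsPos (x * y - algebraMap k κ (c * d)) := by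
  have h1 := hx.mul hy.nonneg_of_sub
  have h2 := hy.mul (v.ord_algebraMap c).ge
  have := h1.add h2
  convert this using 1
  rw [map_mul]; ring

theorem ne_zero_of_isPos_sub {x : κ} {c : k} (hc : c ≠ 0)
    (h : v.IsPos (x - algebraMap k κ c)) : x ≠ 0 := by
  rintro rfl
  apply hc
  have h1 : v.IsPos (algebraMap k κ (-c)) := by
    rw [map_neg]; rwa [zero_sub] at h
  have := eq_zero_of_isPos h1
  exact neg_eq_zero.1 this

theorem ord_eq_zero_of_isPos_sub {x : κ} {c : k} (hc : c ≠ 0)
    (h : v.IsPos (x - algebraMap k κ c)) : v.ord x = 0 := by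
  have hx := ne_zero_of_isPos_sub hc h
  by_contra h0
  have h1 : 0 < v.ord x := lt_of_le_of_ne h.nonneg_of_sub (Ne.symm h0)
  have h2 : v.IsPos (x * (algebraMap k κ (-1))) :=
    IsPos.mul (Or.inr h1) (v.ord_algebraMap _).ge
  have h3 := h.add h2
  have h4 : x - algebraMap k κ c + x * (algebraMap k κ (-1)) = algebraMap k κ (-c) := by
    rw [map_neg, map_neg, map_one]; ring
  rw [h4] at h3
  exact hc (neg_eq_zero.1 (eq_zero_of_isPos h3))

theorem isPos_aeval {ι : Type} {c : ι → κ} {e : ι → k}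
    (h : ∀ p, v.IsPos (c p - algebraMap k κ (e p))) (F : MvPolynomial ι k) :
    v.IsPos (aeval c F - algebraMap k κ (aeval e F)) := by
  induction F using MvPolynomial.induction_on with
  | C r => left; simp
  | add p q hp hq =>
    have := hp.add hq
    convert this using 1
    rw [map_add, map_add, map_add]; ring
  | mul_X p n hp =>
    rw [map_mul, map_mul, aeval_X, aeval_X]
    exact hp.mul_sub (h n)

/-- specialisation at a place -/
theorem isSpec {ι : Type} {c : ι → κ} {e : ι → k} {s : κ} (hs : s ≠ 0)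
    (h : ∀ p, v.IsPos (c p / s - algebraMap k κ (e p))) : IsSpec k c e := by
  intro d F hF hF0
  have h1 := isPos_aeval h F
  have h2 := aeval_div_homog c s hs hF
  rw [hF0] at h2
  rw [(mul_eq_zero.1 h2).resolve_left (pow_ne_zero _ hs), zero_sub] at h1
  have h3 : v.IsPos (algebraMap k κ (-(aeval e F))) := by rw [map_neg]; exact h1
  exact neg_eq_zero.1 (eq_zero_of_isPos h3)

end Place

namespace ProjVar

variable {k : Type} [Field k] {ι : Type} (X : ProjVar k ι) (a : X.Point) {A : Type} [Field A]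
  [Algebra k A] {w : ι → A}

theorem exists_value (hwa : IsSpec k w a.coord) (u : X.localRing a) :
    ∃ t, X.Value w (u : X.K) t := by
  obtain ⟨t, d, F, G, hF, hG, h0, h1, h2⟩ := u.2
  have : aeval w G ≠ 0 := fun h => h0 (hwa _ _ hG h)
  exact ⟨aeval w F / aeval w G, d, F, G, hF, hG, this, h1, by field_simp⟩

/-- restriction of the local ring at `a` to the function field of a subvariety through `a` -/
noncomputable def resHom (hw : IsSpec k X.gen w) (hwa : IsSpec k w a.coord) :
    X.localRing a →ₐ[k] A where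
  toFun u := (X.exists_value a hwa u).choose
  map_one' := Value.unique X hw (X.exists_value a hwa 1).choose_spec (Value.one X)
  map_zero' := Value.unique X hw (X.exists_value a hwa 0).choose_spec (Value.zero X)
  map_add' u u' := Value.unique X hw (X.exists_value a hwa (u + u')).choose_spec
    (Value.add X (X.exists_value a hwa u).choose_spec (X.exists_value a hwa u').choose_spec)
  map_mul' u u' := Value.unique X hw (X.exists_value a hwa (u * u')).choose_spec
    (Value.mul X (X.exists_value a hwa u).choose_spec (X.exists_value a hwa u').choose_spec)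
  commutes' c := Value.unique X hw (X.exists_value a hwa (algebraMap k _ c)).choose_spec
    (Value.algebraMap X c)

theorem value_resHom (hw : IsSpec k X.gen w) (hwa : IsSpec k w a.coord) (u : X.localRing a) :
    X.Value w (u : X.K) (X.resHom a hw hwa u) := (X.exists_value a hwa u).choose_spec

theorem resHom_eq (hw : IsSpec k X.gen w) (hwa : IsSpec k w a.coord) {u : X.localRing a} {t : A}
    (h : X.Value w (u : X.K) t) : X.resHom a hw hwa u = t :=
  Value.unique X hw (X.value_resHom a hw hwa u) h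

/-- restrictions are integral at a place centred at `a` -/
theorem ord_resHom (hw : IsSpec k X.gen w) (hwa : IsSpec k w a.coord) {v : Place k A} {s : A}
    (hs : s ≠ 0) (h : ∀ p, v.IsPos (w p / s - algebraMap k A (a.coord p)))
    (u : X.localRing a) : 0 ≤ v.ord (X.resHom a hw hwa u) := by
  obtain ⟨t, d, F, G, hF, hG, h0, h1, h2⟩ := u.2
  have hGw : aeval w G ≠ 0 := fun h => h0 (hwa _ _ hG h)
  have e : X.resHom a hw hwa u = aeval w F / aeval w G :=
    X.resHom_eq a hw hwa ⟨d, F, G, hF, hG, hGw, h1, by field_simp⟩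
  have hF' := aeval_div_homog w s hs hF
  have hG' := aeval_div_homog w s hs hG
  have hF1 := Place.isPos_aeval h F
  have hG1 := Place.isPos_aeval h G
  have hG2 := Place.ne_zero_of_isPos_sub h0 hG1
  have e' : X.resHom a hw hwa u = aeval (fun p => w p / s) F / aeval (fun p => w p / s) G := by
    rw [e, ← hF', ← hG']
    field_simp
  by_cases hF2 : aeval (fun p => w p / s) F = 0
  · rw [e', hF2, zero_div, v.ord_zero]
  · rw [e', Place.ord_div _ _ _ hF2 hG2, Place.ord_eq_zero_of_isPos_sub h0 hG1, sub_zero]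
    exact hF1.nonneg_of_sub

end ProjVar

variable {k : Type} [Field k]

/-- specialisations of the generic point of the surface -/
theorem surf_spec (g : GenPt k) {A : Type} [Field A] [Algebra k A] {x y z w : A}
    (hE : y ^ 2 = x ^ 3 + 1) (hB : w ^ 2 = z ^ 6 + 1) :
    IsSpec k (surf g).gen (segre ![1, x, y] ![1, z, z ^ 2, z ^ 3, w]) := by
  intro d F hF hF0
  have key : ∀ (B : Type) [Field B] [Algebra k B] (x y z w : B),
      aeval (segre (![1, x, y] : Fin 3 → B) (![1, z, z ^ 2, z ^ 3, w] : Fin 5 → B)) F =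
        aeval ![x, y, z, w] (bind₁ (segre
          (![1, MvPolynomial.X 0, MvPolynomial.X 1] : Fin 3 → MvPolynomial (Fin 4) k)
          (![1, MvPolynomial.X 2, MvPolynomial.X 2 ^ 2, MvPolynomial.X 2 ^ 3,
            MvPolynomial.X 3] : Fin 5 → MvPolynomial (Fin 4) k)) F) := by
    intro B _ _ x y z w
    rw [aeval_bind₁]
    congr 2
    funext p
    obtain ⟨i, j⟩ := p
    fin_cases i <;> fin_cases j <;> simp [segre]
  rw [key]
  refine g.spec A x y z w hE hB _ ?_
  rw [← key]
  exact hF0

/-- the coordinate vector over `W` of the generic point of `C_n` -/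
noncomputable def curveGen {k : Type} [Field k] [IsAlgClosed k] [CharP k 7] {n : ℕ}
    {D : WData k n} (b : WPoint D) (X Y : D.W) : Fin 3 × Fin 5 → D.W :=
  segre ![1, X, Y] ![1, b.z ^ 7 ^ n, (b.z ^ 7 ^ n) ^ 2, (b.z ^ 7 ^ n) ^ 3, b.w ^ 7 ^ n]

section

variable [IsAlgClosed k] [CharP k 7] {n : ℕ}

theorem WPoint.frob_eq {D : WData k n} (b : WPoint D) :
    (b.w ^ 7 ^ n) ^ 2 = (b.z ^ 7 ^ n) ^ 6 + 1 := by
  have : (b.w ^ 2) ^ 7 ^ n = (b.z ^ 6 + 1) ^ 7 ^ n := by rw [b.hw]
  have hp : Fact (Nat.Prime 7) := ⟨by norm_num⟩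
  rw [add_pow_char_pow, one_pow] at this
  rw [← pow_mul, mul_comm (7 ^ n) 2, pow_mul, this, ← pow_mul, ← pow_mul, mul_comm 6]

theorem curve_isSpec (g : GenPt k) {D : WData k n} (b : WPoint D) {X Y : D.W}
    (h : Y ^ 2 = X ^ 3 + 1) : IsSpec k (surf g).gen (curveGen b X Y) :=
  surf_spec g h b.frob_eq

/-- the centre of the place -/
theorem curve_isPos (hn : 0 < n) {D : WData k n} (b : WPoint D) {v : Place k D.W}
    (hz : v.ord b.z = 1) (hw : b.w - 1 = 0 ∨ 0 < v.ord (b.w - 1)) {X Y : D.W} (hX : X ≠ 0)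
    (hY : Y ≠ 0) (hX' : v.ord X = -2 * ((7 : ℤ) ^ n - 1))
    (hY' : v.ord Y = -3 * ((7 : ℤ) ^ n - 1)) (p : Fin 3 × Fin 5) :
    v.IsPos (curveGen b X Y p / Y - algebraMap k D.W (originCoord k p)) := by
  have hq : (7 : ℤ) ≤ 7 ^ n := by
    calc (7 : ℤ) = 7 ^ 1 := (pow_one _).symm
      _ ≤ 7 ^ n := pow_le_pow_right₀ (by norm_num) hn
  obtain ⟨i, j⟩ := p
  have h1 : v.IsPos ((![1, X, Y] : Fin 3 → D.W) i / Y -
      algebraMap k D.W ((![0, 0, 1] : Fin 3 → k) i)) := by
    fin_cases i
    · right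
      simp only [Fin.zero_eta, Matrix.cons_val_zero, map_zero, sub_zero]
      rw [Place.ord_div _ _ _ one_ne_zero hY, Place.ord_one, hY']
      linarith
    · right
      simp only [Fin.mk_one, Matrix.cons_val_one, Matrix.cons_val_zero, map_zero, sub_zero]
      rw [Place.ord_div _ _ _ hX hY, hX', hY']
      linarith
    · left
      simp [hY]
  have hzp : v.IsPos (b.z ^ 7 ^ n) := by
    right
    rw [Place.ord_pow _ _ _ b.hz0, hz]
    positivity
  have h2 : v.IsPos ((![1, b.z ^ 7 ^ n, (b.z ^ 7 ^ n) ^ 2, (b.z ^ 7 ^ n) ^ 3, b.w ^ 7 ^ n] :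
      Fin 5 → D.W) j - algebraMap k D.W ((![1, 0, 0, 0, 1] : Fin 5 → k) j)) := by
    fin_cases j
    · left; simp
    · simpa using hzp
    · have := hzp.mul hzp.nonneg
      simpa [sq] using this
    · have := (hzp.mul hzp.nonneg).mul hzp.nonneg
      have e : b.z ^ 7 ^ n * b.z ^ 7 ^ n * b.z ^ 7 ^ n = (b.z ^ 7 ^ n) ^ 3 := by ring
      rw [e] at this
      simpa using this
    · have hp : Fact (Nat.Prime 7) := ⟨by norm_num⟩
      have e : b.w ^ 7 ^ n - 1 = (b.w - 1) ^ 7 ^ n := by
        rw [sub_pow_char_pow, one_pow]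
      have : v.IsPos (b.w ^ 7 ^ n - 1) := by
        rw [e]
        by_cases h0 : b.w - 1 = 0
        · left; rw [h0, zero_pow (by positivity)]
        · right
          rw [Place.ord_pow _ _ _ h0]
          have := hw.resolve_left h0
          positivity
      simpa using this
  have h3 := h1.mul_sub h2
  convert h3 using 1
  have e1 : curveGen b X Y (i, j) / Y = (![1, X, Y] : Fin 3 → D.W) i / Y *
      (![1, b.z ^ 7 ^ n, (b.z ^ 7 ^ n) ^ 2, (b.z ^ 7 ^ n) ^ 3, b.w ^ 7 ^ n] : Fin 5 → D.W) j := by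
    simp only [curveGen, segre]; ring
  rw [e1]
  rfl

/-- the function field of the curve -/
noncomputable abbrev curveField {D : WData k n} (b : WPoint D) (X Y : D.W) :
    IntermediateField k D.W :=
  IntermediateField.adjoin k (Set.range (curveGen b X Y))

/-- coordinates of the generic point in the function field of the curve -/
noncomputable def curveGen' {D : WData k n} (b : WPoint D) (X Y : D.W) (p : Fin 3 × Fin 5) :
    curveField b X Y :=
  ⟨curveGen b X Y p, IntermediateField.subset_adjoin _ _ ⟨p, rfl⟩⟩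

theorem adjoin_curveGen' {D : WData k n} (b : WPoint D) (X Y : D.W) :
    IntermediateField.adjoin k (Set.range (curveGen' b X Y)) = ⊤ := by
  apply IntermediateField.lift_injective
  rw [IntermediateField.lift_top, IntermediateField.lift_adjoin]
  congr 1
  ext u
  simp [curveGen']

theorem curve_trdeg {D : WData k n} (b : WPoint D) (X Y : D.W)
    (hz : ∀ c : k, b.z ≠ algebraMap k D.W c) : Algebra.trdeg k (curveField b X Y) = 1 := by
  apply le_antisymm
  · rw [← D.curve.trdeg]
    exact trdeg_le_of_injective (curveField b X Y).val Subtype.val_injective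
  · rw [Cardinal.one_le_iff_ne_zero, trdeg_ne_zero_iff]
    by_contra h
    rw [Algebra.transcendental_iff_not_isAlgebraic, not_not] at h
    have hsurj := IsAlgClosed.algebraMap_bijective_of_isIntegral (k := k)
      (K := curveField b X Y)
    obtain ⟨c, hc⟩ := hsurj.2 (curveGen' b X Y (0, 1))
    obtain ⟨c', hc'⟩ := IsAlgClosed.exists_pow_nat_eq c (n := 7 ^ n) (by positivity)
    have h1 : b.z ^ 7 ^ n = algebraMap k D.W c := by
      have := congrArg Subtype.val hc
      simp only [curveGen', curveGen, segre, Matrix.cons_val_zero, Matrix.cons_val_one,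
        one_mul] at this
      rw [← this]
      rfl
    rw [← hc', map_pow] at h1
    have hp : Fact (Nat.Prime 7) := ⟨by norm_num⟩
    have h2 : (b.z - algebraMap k D.W c') ^ 7 ^ n = 0 := by
      rw [sub_pow_char_pow, h1, sub_self]
    exact hz c' (sub_eq_zero.1 (pow_eq_zero_iff (by positivity) |>.1 h2))

/-- the curve as a projective variety -/
noncomputable def curveVar {D : WData k n} (b : WPoint D) (X Y : D.W) :
    ProjVar k (Fin 3 × Fin 5) where
  K := curveField b X Y
  gen := curveGen' b X Y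
  gen_ne_zero := by
    intro h
    have := congrArg Subtype.val (congrFun h (0, 0))
    simp [curveGen', curveGen, segre] at this
  gen_span := by
    have h1 : curveGen' b X Y (0, 0) = 1 := by
      apply Subtype.ext
      simp [curveGen', curveGen, segre]
    refine span_of_adjoin' _ (0, 0) (by rw [h1]; exact one_ne_zero) ?_
    simp only [h1, div_one]
    exact adjoin_curveGen' b X Y

/-- a homogeneous equation of the generic point in `W` -/
theorem aeval_curveGen' {D : WData k n} (b : WPoint D) (X Y : D.W)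
    (F : MvPolynomial (Fin 3 × Fin 5) k) :
    ((aeval (curveGen' b X Y) F : curveField b X Y) : D.W) = aeval (curveGen b X Y) F := by
  have : ((aeval (curveGen' b X Y) F : curveField b X Y) : D.W) =
    (curveField b X Y).val (aeval (curveGen' b X Y) F) := rfl
  rw [this, comp_aeval_apply]
  rfl

theorem aeval_curveVar_eq_zero {D : WData k n} (b : WPoint D) (X Y : D.W)
    (F : MvPolynomial (Fin 3 × Fin 5) k) :
    aeval (curveVar b X Y).gen F = 0 ↔ aeval (curveGen b X Y) F = 0 := by
  rw [← aeval_curveGen', ZeroMemClass.coe_eq_zero]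
  rfl

/-- the curve on the surface -/
noncomputable def curveOn (g : GenPt k) {D : WData k n} (b : WPoint D)
    (hz : ∀ c : k, b.z ≠ algebraMap k D.W c) {X Y : D.W} (h : Y ^ 2 = X ^ 3 + 1) :
    (surf g).Curve where
  toVar := curveVar b X Y
  dim := curve_trdeg b X Y hz
  sub := fun d F hF hF0 => (aeval_curveVar_eq_zero b X Y F).2 (curve_isSpec g b h d F hF hF0)

theorem curve_isCurveField {D : WData k n} (b : WPoint D) (X Y : D.W)
    (hz : ∀ c : k, b.z ≠ algebraMap k D.W c) : IsCurveField k (curveVar b X Y).K where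
  trdeg := curve_trdeg b X Y hz
  fg := by
    classical
    obtain ⟨S, hS⟩ : ∃ S : Finset (curveField b X Y),
        (S : Set (curveField b X Y)) = Set.range (curveGen' b X Y) :=
      ⟨Finset.univ.image (curveGen' b X Y), by
        rw [Finset.coe_image, Finset.coe_univ, Set.image_univ]⟩
    refine ⟨S, ?_⟩
    have := adjoin_curveGen' b X Y
    rw [← hS] at this
    exact this

/-- the hypotheses on the place and the point of `E` (from `wPlace`) -/
structure WPlaceData (D : WData k n) (b : WPoint D) where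
  v : Place k D.W
  hz : v.ord b.z = 1
  hw : b.w - 1 = 0 ∨ 0 < v.ord (b.w - 1)
  X : D.W
  Y : D.W
  h : Y ^ 2 = X ^ 3 + 1
  X0 : X ≠ 0
  Y0 : Y ≠ 0
  hX : v.ord X = -2 * ((7 : ℤ) ^ n - 1)
  hY : v.ord Y = -3 * ((7 : ℤ) ^ n - 1)

theorem WPlaceData.isSpec (hn : 0 < n) {D : WData k n} {b : WPoint D} (P : WPlaceData D b) :
    IsSpec k (curveGen b P.X P.Y) (originCoord k) :=
  Place.isSpec P.Y0 (curve_isPos hn b P.hz P.hw P.X0 P.Y0 P.hX P.hY)

theorem exists_origin_of (g : GenPt k) (hn : 0 < n) {D : WData k n} {b : WPoint D}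
    (P : WPlaceData D b) : ∃ a : (surf g).Point, a.coord = originCoord k := by
  refine ⟨⟨originCoord k, ?_, ?_⟩, rfl⟩
  · intro h
    have := congrFun h (2, 0)
    simp [originCoord, segre] at this
  · intro d F hF hF0
    exact P.isSpec hn d F hF (curve_isSpec g b P.h d F hF hF0)

/-- the multiplicity of `C_n` at the origin -/
theorem curve_mult (g : GenPt k) (hn : 0 < n) {D : WData k n} {b : WPoint D}
    (P : WPlaceData D b) (hz : ∀ c : k, b.z ≠ algebraMap k D.W c)
    (a : (surf g).Point) (ha : a.coord = originCoord k) :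
    (((7 ^ n - 1 : ℕ) : ℕ∞) ≤ (curveOn g b hz P.h).mult a) := by
  have hq : 7 ≤ 7 ^ n := seven_le_pow hn
  have hq' : ((7 ^ n - 1 : ℕ) : ℤ) = 7 ^ n - 1 := by
    rw [Nat.cast_sub (by omega)]; push_cast; ring
  have hw : IsSpec k (surf g).gen (curveGen b P.X P.Y) := curve_isSpec g b P.h
  have hwa : IsSpec k (curveGen b P.X P.Y) a.coord := by rw [ha]; exact P.isSpec hn
  have hpos : ∀ p, P.v.IsPos (curveGen b P.X P.Y p / P.Y - algebraMap k D.W (a.coord p)) := by
    intro p
    rw [ha]
    exact curve_isPos hn b P.hz P.hw P.X0 P.Y0 P.hX P.hY p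
  obtain ⟨ξ, ζ, hξ, hζ, h𝔪⟩ := surf_origin_params g a ha
  have hg20 : (surf g).gen (2, 0) ≠ 0 := by
    apply (surf g).gen_coord_ne a
    rw [ha]
    simp [originCoord, segre]
  have hy : g.y ≠ 0 := by
    intro h
    apply hg20
    rw [surf_gen]
    change g.y * 1 = 0
    rw [h, zero_mul]
  have e1 : (surf g).gen (1, 0) / (surf g).gen (2, 0) = g.x / g.y := by
    change (g.x * 1) / (g.y * 1) = g.x / g.y
    rw [mul_one, mul_one]
  have e2 : (surf g).gen (2, 1) / (surf g).gen (2, 0) = g.z := by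
    change (g.y * g.z) / (g.y * 1) = g.z
    rw [mul_one, mul_div_cancel_left₀ _ hy]
  have hc20 : curveGen b P.X P.Y (2, 0) ≠ 0 := by
    simpa [curveGen, segre] using P.Y0
  have rξ : (surf g).resHom a hw hwa ξ = P.X / P.Y := by
    apply (surf g).resHom_eq a hw hwa
    have := ProjVar.Value.coord (surf g) (w := curveGen b P.X P.Y) (1, 0) (2, 0) hg20 hc20
    rw [e1] at this
    rw [hξ]
    convert this using 1
    simp [curveGen, segre]
  have rζ : (surf g).resHom a hw hwa ζ = b.z ^ 7 ^ n := by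
    apply (surf g).resHom_eq a hw hwa
    have := ProjVar.Value.coord (surf g) (w := curveGen b P.X P.Y) (2, 1) (2, 0) hg20 hc20
    rw [e2] at this
    rw [hζ]
    convert this using 1
    simp [curveGen, segre, P.Y0]
  refine le_iSup₂_of_le (7 ^ n - 1) ?_ le_rfl
  intro u hu
  refine mult_lemma ((surf g).maxIdeal a) ξ ζ h𝔪 ?_ P.v ((surf g).resHom a hw hwa)
    (7 ^ n - 1) (by omega) ?_ ?_ ?_ ?_ ?_ u ?_
  · intro u
    refine ⟨(surf g).ev a u, ?_⟩
    rw [(surf g).mem_maxIdeal a, map_sub, AlgHom.commutes]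
    simp
  · exact (surf g).ord_resHom a hw hwa P.Y0 hpos
  · rw [rξ]; exact div_ne_zero P.X0 P.Y0
  · rw [rξ, Place.ord_div _ _ _ P.X0 P.Y0, P.hX, P.hY, hq']; ring
  · rw [rζ]; exact pow_ne_zero _ b.hz0
  · rw [rζ, Place.ord_pow _ _ _ b.hz0, P.hz, hq']; push_cast; ring
  · obtain ⟨d, F, G, hF, hG, h0, h1, h2⟩ := hu
    apply (surf g).resHom_eq a hw hwa
    refine ⟨d, F, G, hF, hG, fun h => h0 (hwa _ _ hG h), h1, ?_⟩
    rw [zero_mul]
    exact ((aeval_curveVar_eq_zero b P.X P.Y F).1 h2).symm

/-- the place and the point of `E` from `wPlace` -/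
theorem exists_wPlaceData (hn : 0 < n) (D : WData k n) (b : WPoint D) :
    ∃ P : WPlaceData D b, pt2 D.T D.u b.hT0 D.hu - pt2 b.z b.w b.hz0 b.hw = mk P.X P.Y P.h := by
  obtain ⟨v, -, hz, hw, X, Y, h, he, hX0, hY0, hX, hY⟩ := wPlace hn D b
  exact ⟨⟨v, hz, hw, X, Y, h, hX0, hY0, hX, hY⟩, he⟩

/-- (O11) The curve `C_n`: function field = the subfield of `W` generated by the ratios of the
coordinates of `curveGen`; it passes through the point `(O,(0,1))` with multiplicity at least
`7^n - 1`. -/
theorem exists_curve (g : GenPt k) (hn : 0 < n) (D : WData k n) (b : WPoint D)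
    (hz : ∀ c : k, b.z ≠ algebraMap k D.W c)
    (a : (surf g).Point) (ha : a.coord = originCoord k) :
    ∃ (C : (surf g).Curve) (j : C.toVar.K →ₐ[k] D.W) (X Y : D.W) (h : Y ^ 2 = X ^ 3 + 1),
      IsCurveField k C.toVar.K ∧ C.PassesThrough a ∧ (((7 ^ n - 1 : ℕ) : ℕ∞) ≤ C.mult a) ∧
      pt2 D.T D.u b.hT0 D.hu - pt2 b.z b.w b.hz0 b.hw = mk X Y h ∧
      ∀ p, j (C.toVar.gen p) = curveGen b X Y p := by
  obtain ⟨P, hP⟩ := exists_wPlaceData hn D b
  refine ⟨curveOn g b hz P.h, (curveField b P.X P.Y).val, P.X, P.Y, P.h,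
    curve_isCurveField b P.X P.Y hz, ?_, curve_mult g hn P hz a ha, hP, fun p => rfl⟩
  intro d F hF hF0
  rw [ha]
  exact P.isSpec hn d F hF ((aeval_curveVar_eq_zero b P.X P.Y F).1 hF0)

/-- (O11) the point `(O,(0,1))` lies on the surface. -/
theorem exists_origin (g : GenPt k) (hn : 0 < n) (D : WData k n) (b : WPoint D) :
    ∃ a : (surf g).Point, a.coord = originCoord k := by
  obtain ⟨P, -⟩ := exists_wPlaceData hn D b
  exact exists_origin_of g hn P

end

end Seshadri
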